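import Pool.Agent.KBG.Stmts

/-!
# Graphs in the Klein bottle (project KBG): module ARC
-/

set_option autoImplicit false

namespace KBG

open Set

namespace ARCaux

/-- The first third. -/
def I1 : Set unitInterval := {r | (r : ℝ) ≤ 1 / 3}

/-- The middle third. -/
def I2 : Set unitInterval := {r | (1 / 3 : ℝ) ≤ r ∧ (r : ℝ) ≤ 2 / 3}

/-- The last third. -/
def I3 : Set unitInterval := {r | (2 / 3 : ℝ) ≤ r}

/-- one third -/
noncomputable def a1 : unitInterval := ⟨1 / 3, by norm_num, by norm_num⟩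

/-- two thirds -/
noncomputable def a2 : unitInterval := ⟨2 / 3, by norm_num, by norm_num⟩

theorem I1_eq : I1 = Iic a1 := by
  ext r
  exact Iff.rfl

theorem I2_eq : I2 = Icc a1 a2 := by
  ext r
  exact Iff.rfl

theorem I3_eq : I3 = Ici a2 := by
  ext r
  exact Iff.rfl

theorem compact1 : IsCompact I1 := by
  rw [I1_eq]
  exact isClosed_Iic.isCompact

theorem compact2 : IsCompact I2 := by
  rw [I2_eq]
  exact isClosed_Icc.isCompact

theorem compact3 : IsCompact I3 := by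
  rw [I3_eq]
  exact isClosed_Ici.isCompact

theorem conn1 : IsPreconnected I1 := by
  rw [I1_eq]
  exact ordConnected_Iic.isPreconnected

theorem conn2 : IsPreconnected I2 := by
  rw [I2_eq]
  exact ordConnected_Icc.isPreconnected

theorem conn3 : IsPreconnected I3 := by
  rw [I3_eq]
  exact ordConnected_Ici.isPreconnected

end ARCaux

open ARCaux in
theorem t_ARC : S_ARC := by
  classical
  intro V _ G ⟨φ, hφ, γ, h1, h2, h3⟩
  have hout : ∀ e : {e : Sym2 V // e ∈ G.edgeSet}, ∃ p : V × V, s(p.1, p.2) = e.1 := by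
    rintro ⟨e, _⟩
    induction e using Sym2.ind with
    | _ a b => exact ⟨(a, b), rfl⟩
  choose p hp using hout
  let s : {e : Sym2 V // e ∈ G.edgeSet} → V := fun e => (p e).1
  let t : {e : Sym2 V // e ∈ G.edgeSet} → V := fun e => (p e).2
  have hst : ∀ e, s(s e, t e) = e.1 := hp
  have hadj : ∀ e, G.Adj (s e) (t e) := by
    intro e
    have h := e.2
    rw [← hst e, SimpleGraph.mem_edgeSet] at h
    exact h
  let c : ∀ e : {e : Sym2 V // e ∈ G.edgeSet}, unitInterval → K := fun e => ⇑(γ (s e) (t e))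
  have hc : ∀ e, Continuous (c e) := fun e => (γ (s e) (t e)).continuous
  have c0 : ∀ e, c e 0 = φ (s e) := fun e => (γ (s e) (t e)).source
  have c1 : ∀ e, c e 1 = φ (t e) := fun e => (γ (s e) (t e)).target
  let C : V → Set (Set K) := fun v => {S | S = {φ v} ∨ (∃ e, s e = v ∧ S = c e '' I1) ∨
    ∃ e, t e = v ∧ S = c e '' I3}
  let X : V → Set K := fun v => ⋃₀ C v
  let Y : {e : Sym2 V // e ∈ G.edgeSet} → Set K := fun e => c e '' I2
  have hmem : ∀ v, ∀ k ∈ X v, k = φ v ∨ ∃ e, ∃ r : unitInterval, (0 : ℝ) < r ∧ (r : ℝ) < 1 ∧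
      c e r = k ∧ ((s e = v ∧ (r : ℝ) ≤ 1 / 3) ∨ (t e = v ∧ (2 / 3 : ℝ) ≤ r)) := by
    intro v k hk
    obtain ⟨S, hS, hkS⟩ := mem_sUnion.1 hk
    rcases hS with rfl | ⟨e, he, rfl⟩ | ⟨e, he, rfl⟩
    · left
      exact hkS
    · obtain ⟨r, hr, rfl⟩ := hkS
      have hr' : (r : ℝ) ≤ 1 / 3 := hr
      rcases eq_or_lt_of_le r.2.1 with h0 | h0
      · left
        have : r = 0 := Subtype.ext h0.symm
        rw [this, c0, he]
      · right
        exact ⟨e, r, h0, by linarith, rfl, Or.inl ⟨he, hr'⟩⟩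
    · obtain ⟨r, hr, rfl⟩ := hkS
      have hr' : (2 / 3 : ℝ) ≤ r := hr
      rcases eq_or_lt_of_le r.2.2 with h0 | h0
      · left
        have : r = 1 := Subtype.ext h0
        rw [this, c1, he]
      · right
        exact ⟨e, r, by linarith, h0, rfl, Or.inr ⟨he, hr'⟩⟩
  have hdiff : ∀ e f (r r' : unitInterval), (0 : ℝ) < r → (r : ℝ) < 1 → (0 : ℝ) < r' →
      (r' : ℝ) < 1 → c e r = c f r' → e = f ∧ r = r' := by
    intro e f r r' a b a' b' heq
    have hef : e = f := by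
      by_contra hne
      refine h3 (s e) (t e) (s f) (t f) (hadj e) (hadj f) ?_ r r' a b a' b' heq
      rw [hst, hst]
      exact fun h => hne (Subtype.ext h)
    subst hef
    exact ⟨rfl, h1 (s e) (t e) (hadj e) heq⟩
  have hvert : ∀ e (r : unitInterval) (v : V), (0 : ℝ) < r → (r : ℝ) < 1 → c e r ≠ φ v :=
    fun e r v a b => h2 (s e) (t e) v (hadj e) r a b
  refine ⟨{e : Sym2 V // e ∈ G.edgeSet}, inferInstance, s, t, X, Y, ?_, ?_, ?_, ?_, ?_, ?_, ?_, ?_⟩
  · intro u v huv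
    refine ⟨⟨s(u, v), huv⟩, ?_⟩
    have h := hst ⟨s(u, v), huv⟩
    rw [Sym2.eq_iff] at h
    exact h
  · intro e
    exact (hadj e).ne
  · intro v
    have hφX : φ v ∈ X v := mem_sUnion.2 ⟨{φ v}, Or.inl rfl, rfl⟩
    refine ⟨?_, ?_, ⟨φ v, hφX⟩⟩
    · have hfin : (C v).Finite := by
        have hsub : C v ⊆ {{φ v}} ∪ (range fun e => c e '' I1) ∪ range fun e => c e '' I3 := by
          rintro S (rfl | ⟨e, _, rfl⟩ | ⟨e, _, rfl⟩)
          · exact Or.inl (Or.inl rfl)
          · exact Or.inl (Or.inr ⟨e, rfl⟩)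
          · exact Or.inr ⟨e, rfl⟩
        exact (((finite_singleton _).union (finite_range _)).union (finite_range _)).subset hsub
      refine hfin.isCompact_sUnion ?_
      rintro S (rfl | ⟨e, _, rfl⟩ | ⟨e, _, rfl⟩)
      · exact isCompact_singleton
      · exact compact1.image (hc e)
      · exact compact3.image (hc e)
    · refine isPreconnected_sUnion (φ v) (C v) ?_ ?_
      · rintro S (rfl | ⟨e, he, rfl⟩ | ⟨e, he, rfl⟩)
        · rfl
        · refine ⟨0, ?_, by rw [c0, he]⟩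
          change ((0 : unitInterval) : ℝ) ≤ 1 / 3
          simp
        · refine ⟨1, ?_, by rw [c1, he]⟩
          change (2 / 3 : ℝ) ≤ ((1 : unitInterval) : ℝ)
          simp
          norm_num
      · rintro S (rfl | ⟨e, _, rfl⟩ | ⟨e, _, rfl⟩)
        · exact isPreconnected_singleton
        · exact conn1.image _ (hc e).continuousOn
        · exact conn3.image _ (hc e).continuousOn
  · intro e
    exact ⟨compact2.image (hc e), conn2.image _ (hc e).continuousOn⟩
  · intro u v huv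
    rw [disjoint_left]
    intro k hku hkv
    rcases hmem u k hku with a | ⟨e, r, a, b, d, f⟩
    · rcases hmem v k hkv with a' | ⟨e', r', a', b', d', _⟩
      · exact huv (hφ (a.symm.trans a'))
      · exact hvert e' r' u a' b' (d'.trans a)
    · rcases hmem v k hkv with a' | ⟨e', r', a', b', d', f'⟩
      · exact hvert e r v a b (d.trans a')
      · obtain ⟨rfl, rfl⟩ := hdiff e e' r r' a b a' b' (d.trans d'.symm)
        rcases f with ⟨f1, f2⟩ | ⟨f1, f2⟩
        · rcases f' with ⟨f3, f4⟩ | ⟨f3, f4⟩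
          · exact huv (f1.symm.trans f3)
          · linarith
        · rcases f' with ⟨f3, f4⟩ | ⟨f3, f4⟩
          · linarith
          · exact huv (f1.symm.trans f3)
  · intro e f hef
    rw [disjoint_left]
    rintro k ⟨r, ⟨hr1, hr2⟩, rfl⟩ ⟨r', ⟨hr1', hr2'⟩, heq⟩
    exact hef (hdiff f e r' r (by linarith) (by linarith) (by linarith) (by linarith) heq).1.symm
  · intro e v hv1 hv2
    rw [disjoint_left]
    rintro k ⟨r, ⟨hr1, hr2⟩, rfl⟩ hkv
    rcases hmem v _ hkv with a' | ⟨e', r', a', b', d', f'⟩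
    · exact hvert e r v (by linarith) (by linarith) a'
    · obtain ⟨rfl, -⟩ := hdiff e' e r' r a' b' (by linarith) (by linarith) d'
      rcases f' with ⟨f1, _⟩ | ⟨f1, _⟩
      · exact hv1 f1.symm
      · exact hv2 f1.symm
  · intro e
    refine ⟨⟨c e a1, ⟨a1, ⟨?_, ?_⟩, rfl⟩, mem_sUnion.2 ⟨c e '' I1, Or.inr (Or.inl ⟨e, rfl, rfl⟩),
      ⟨a1, ?_, rfl⟩⟩⟩, ⟨c e a2, ⟨a2, ⟨?_, ?_⟩, rfl⟩, mem_sUnion.2 ⟨c e '' I3,
      Or.inr (Or.inr ⟨e, rfl, rfl⟩), ⟨a2, ?_, rfl⟩⟩⟩⟩
    · change (1 / 3 : ℝ) ≤ 1 / 3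
      exact le_rfl
    · change (1 / 3 : ℝ) ≤ 2 / 3
      norm_num
    · change (1 / 3 : ℝ) ≤ 1 / 3
      exact le_rfl
    · change (1 / 3 : ℝ) ≤ 2 / 3
      norm_num
    · change (2 / 3 : ℝ) ≤ 2 / 3
      exact le_rfl
    · change (2 / 3 : ℝ) ≤ 2 / 3
      exact le_rfl

end KBG
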