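import Pool.Agent.KBG.Stmts

/-!
# Contraction of an edge of a flag map (project KBG, MP_b1567b_co)
-/

set_option autoImplicit false

namespace KBG

open Set

namespace CONaux

variable {Ω W : Type} (P : PM Ω W)

theorem mem_E (p x : Ω) : x ∈ P.E p ↔ x = p ∨ x = P.a0 p ∨ x = P.a2 p ∨ x = P.a0 (P.a2 p) := by
  simp [PM.E]

theorem w02 (p : Ω) : P.w (P.a0 (P.a2 p)) = P.w (P.a0 p) := by
  rw [P.c02, P.w2]

theorem E0 (p x : Ω) (hx : x ∈ P.E p) : P.a0 x ∈ P.E p := by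
  rw [mem_E] at hx ⊢
  rcases hx with h | h | h | h <;> subst h
  · exact Or.inr (Or.inl rfl)
  · exact Or.inl (P.i0 p)
  · exact Or.inr (Or.inr (Or.inr rfl))
  · exact Or.inr (Or.inr (Or.inl (P.i0 _)))

theorem E2 (p x : Ω) (hx : x ∈ P.E p) : P.a2 x ∈ P.E p := by
  rw [mem_E] at hx ⊢
  rcases hx with h | h | h | h <;> subst h
  · exact Or.inr (Or.inr (Or.inl rfl))
  · exact Or.inr (Or.inr (Or.inr (P.c02 p).symm))
  · exact Or.inl (P.i2 p)
  · refine Or.inr (Or.inl ?_)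
    rw [← P.c02, P.i2]

theorem nE0 (p x : Ω) (hx : x ∉ P.E p) : P.a0 x ∉ P.E p := by
  intro h
  have h1 := E0 P p _ h
  rw [P.i0] at h1
  exact hx h1

theorem nE2 (p x : Ω) (hx : x ∉ P.E p) : P.a2 x ∉ P.E p := by
  intro h
  have h1 := E2 P p _ h
  rw [P.i2] at h1
  exact hx h1

/-- the four flags from a member -/
theorem E_of (p x : Ω) (hx : x ∈ P.E p) (y : Ω) (hy : y ∈ P.E p) :
    y = x ∨ y = P.a0 x ∨ y = P.a2 x ∨ y = P.a0 (P.a2 x) := by
  rw [mem_E] at hx hy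
  have e1 : P.a2 (P.a0 p) = P.a0 (P.a2 p) := (P.c02 p).symm
  have e2 : P.a0 (P.a2 (P.a0 p)) = P.a2 p := by rw [e1, P.i0]
  have e3 : P.a0 (P.a2 (P.a2 p)) = P.a0 p := by rw [P.i2]
  have e4 : P.a2 (P.a0 (P.a2 p)) = P.a0 p := by rw [← P.c02, P.i2]
  have e5 : P.a0 (P.a2 (P.a0 (P.a2 p))) = p := by rw [e4, P.i0]
  rcases hx with h | h | h | h <;> subst h
  · exact hy
  · rw [P.i0, e1, P.i0]
    rcases hy with h | h | h | h
    · exact Or.inr (Or.inl h)
    · exact Or.inl h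
    · exact Or.inr (Or.inr (Or.inr h))
    · exact Or.inr (Or.inr (Or.inl h))
  · rw [P.i2]
    rcases hy with h | h | h | h
    · exact Or.inr (Or.inr (Or.inl h))
    · exact Or.inr (Or.inr (Or.inr h))
    · exact Or.inl h
    · exact Or.inr (Or.inl h)
  · rw [e4, P.i0, P.i0]
    rcases hy with h | h | h | h
    · exact Or.inr (Or.inr (Or.inr h))
    · exact Or.inr (Or.inr (Or.inl h))
    · exact Or.inr (Or.inl h)
    · exact Or.inl h

theorem w_E (p x : Ω) (hx : x ∈ P.E p) :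
    (P.w x = P.w p ∧ P.w (P.a0 x) = P.w (P.a0 p)) ∨
      (P.w x = P.w (P.a0 p) ∧ P.w (P.a0 x) = P.w p) := by
  rw [mem_E] at hx
  rcases hx with h | h | h | h <;> subst h
  · exact Or.inl ⟨rfl, rfl⟩
  · exact Or.inr ⟨rfl, by rw [P.i0]⟩
  · exact Or.inl ⟨P.w2 p, w02 P p⟩
  · exact Or.inr ⟨w02 P p, by rw [P.i0, P.w2]⟩

/-- if the `a1`-image of a flag of the edge is in the edge, it is the `a2`-image -/
theorem a1_eq (p : Ω) (hp : P.w p ≠ P.w (P.a0 p)) (x : Ω) (hx : x ∈ P.E p)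
    (h1 : P.a1 x ∈ P.E p) : P.a1 x = P.a2 x := by
  have hne : P.w x ≠ P.w (P.a0 x) := by
    rcases w_E P p x hx with ⟨h, h'⟩ | ⟨h, h'⟩
    · rw [h, h']; exact hp
    · rw [h, h']; exact hp.symm
  rcases E_of P p x hx _ h1 with h | h | h | h
  · exact absurd h (P.n1 x)
  · exfalso
    apply hne
    rw [← h, P.w1]
  · exact h
  · exfalso
    apply hne
    rw [← w02 P x, ← h, P.w1]

theorem only (x : Ω) (h : P.a1 x = P.a2 x) (y : Ω) (hy : P.w x = P.w y) :
    y = x ∨ y = P.a2 x := by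
  have h' : P.a1 (P.a2 x) = x := by rw [← h, P.i1]
  refine P.vtx (fun z => z = x ∨ z = P.a2 x) ?_ ?_ x y hy (Or.inl rfl)
  · intro z
    constructor
    · rintro (hz | hz)
      · right
        rw [← h, ← hz, P.i1]
      · left
        rw [← P.i1 z, hz, h']
    · rintro (hz | hz)
      · right
        rw [hz, h]
      · left
        rw [hz, h']
  · intro z
    constructor
    · rintro (hz | hz)
      · right
        rw [← hz, P.i2]
      · left
        rw [← P.i2 z, hz, P.i2]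
    · rintro (hz | hz)
      · right
        rw [hz]
      · left
        rw [hz, P.i2]

end CONaux

open CONaux in
theorem t_CON : M_CON := by
  classical
  intro hS hM Ω W _ P p hp hy0
  have hq1 : P.a2 p ≠ p := P.n2 p
  have hq2 : P.a2 p ≠ P.a0 p := by
    intro h
    apply P.n02 p
    rw [h, P.i0]
  obtain ⟨k0, k1, -⟩ := hS Ω P.a1 P.a0 p (P.a2 p) P.i1 P.i0 P.n1 P.n0 hq1 hq2 (P.E p)
    (mem_E P p)
  have hmrg : ∀ g : Ω → Prop, (∀ y, y ∉ P.E p → (g (sk P.a1 P.a0 (P.E p) y) ↔ g y)) →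
    (∀ y, y ∉ P.E p → (g (P.a2 y) ↔ g y)) → ∀ y, y ∉ P.E p → ∀ z, z ∉ P.E p →
    (P.w y = P.w z ∨ ((P.w y = P.w p ∨ P.w y = P.w (P.a0 p)) ∧
      (P.w z = P.w p ∨ P.w z = P.w (P.a0 p)))) → g y → g z := hM Ω W P p hp
  let mg : W → {v : W // v ≠ P.w (P.a0 p)} := fun v =>
    if h : v = P.w (P.a0 p) then ⟨P.w p, hp⟩ else ⟨v, h⟩
  have mg1 : ∀ v, v = P.w (P.a0 p) → (mg v : W) = P.w p := by
    intro v h
    simp only [mg, dif_pos h]
  have mg2 : ∀ v, v ≠ P.w (P.a0 p) → (mg v : W) = v := by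
    intro v h
    simp only [mg, dif_neg h]
  have mgE : mg (P.w p) = mg (P.w (P.a0 p)) := by
    apply Subtype.ext
    rw [mg2 _ hp, mg1 _ rfl]
  have mginj : ∀ u v : W, mg u = mg v → u = v ∨
      ((u = P.w p ∨ u = P.w (P.a0 p)) ∧ (v = P.w p ∨ v = P.w (P.a0 p))) := by
    intro u v h
    have h' := congrArg Subtype.val h
    by_cases hu : u = P.w (P.a0 p) <;> by_cases hv : v = P.w (P.a0 p)
    · exact Or.inl (hu.trans hv.symm)
    · rw [mg1 _ hu, mg2 _ hv] at h'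
      exact Or.inr ⟨Or.inr hu, Or.inl h'.symm⟩
    · rw [mg2 _ hu, mg1 _ hv] at h'
      exact Or.inr ⟨Or.inl h', Or.inr hv⟩
    · rw [mg2 _ hu, mg2 _ hv] at h'
      exact Or.inl h'
  have hw1 : ∀ y, y ∉ P.E p → mg (P.w (sk P.a1 P.a0 (P.E p) y)) = mg (P.w y) := by
    intro y hy
    refine (k1 (fun x => mg (P.w x) = mg (P.w y)) ?_ ?_ y hy).2 rfl
    · intro x
      rw [P.w1]
    · intro x hx
      have : mg (P.w (P.a0 x)) = mg (P.w x) := by
        rcases w_E P p x hx with ⟨h, h'⟩ | ⟨h, h'⟩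
        · rw [h, h', mgE]
        · rw [h, h', mgE]
      rw [this]
  let P' : PM {y : Ω // y ∉ P.E p} {v : W // v ≠ P.w (P.a0 p)} :=
    { a0 := fun y => ⟨P.a0 y, nE0 P p y y.2⟩
      a1 := fun y => ⟨sk P.a1 P.a0 (P.E p) y, (k0 y y.2).1⟩
      a2 := fun y => ⟨P.a2 y, nE2 P p y y.2⟩
      w := fun y => mg (P.w y)
      i0 := fun y => Subtype.ext (P.i0 y)
      i1 := fun y => Subtype.ext (k0 y y.2).2.1
      i2 := fun y => Subtype.ext (P.i2 y)
      n0 := fun y h => P.n0 y (congrArg Subtype.val h)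
      n1 := fun y h => (k0 y y.2).2.2 (congrArg Subtype.val h)
      n2 := fun y h => P.n2 y (congrArg Subtype.val h)
      n02 := fun y h => P.n02 y (congrArg Subtype.val h)
      c02 := fun y => Subtype.ext (P.c02 y)
      w1 := fun y => hw1 y y.2
      w2 := fun y => congrArg mg (P.w2 y)
      vtx := by
        intro g h1 h2 x y hxy hg
        have key := hmrg (fun z => ∃ h : z ∉ P.E p, g ⟨z, h⟩) ?_ ?_ x x.2 y y.2
          (mginj _ _ hxy) ⟨x.2, hg⟩
        · exact key.2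
        · intro z hz
          constructor
          · rintro ⟨h, hh⟩
            exact ⟨hz, (h1 ⟨z, hz⟩).1 hh⟩
          · rintro ⟨h, hh⟩
            exact ⟨(k0 z hz).1, (h1 ⟨z, hz⟩).2 hh⟩
        · intro z hz
          constructor
          · rintro ⟨h, hh⟩
            exact ⟨hz, (h2 ⟨z, hz⟩).1 hh⟩
          · rintro ⟨h, hh⟩
            exact ⟨nE2 P p z hz, (h2 ⟨z, hz⟩).2 hh⟩ }
  refine ⟨P', fun y => rfl, fun y => ⟨fun h => mg1 _ h, fun h => mg2 _ h⟩, ?_⟩
  -- faces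
  have s0 : ∀ x, Quot.mk P.Fr (P.a0 x) = Quot.mk P.Fr x := by
    intro x
    have h : P.Fr x (P.a0 x) := Or.inl rfl
    exact (Quot.sound h).symm
  have s1 : ∀ x, Quot.mk P.Fr (P.a1 x) = Quot.mk P.Fr x := by
    intro x
    have h : P.Fr x (P.a1 x) := Or.inr rfl
    exact (Quot.sound h).symm
  have hlift : ∀ x y : {y : Ω // y ∉ P.E p}, P'.Fr x y →
      Quot.mk P.Fr (x : Ω) = Quot.mk P.Fr (y : Ω) := by
    intro x y h
    rcases h with h | h
    · subst h
      exact (s0 x).symm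
    · subst h
      symm
      refine (k1 (fun z => Quot.mk P.Fr z = Quot.mk P.Fr (x : Ω)) ?_ ?_ x x.2).2 rfl
      · intro z
        rw [s1]
      · intro z _
        rw [s0]
  let F : P'.Face → P.Face := Quot.lift (fun y => Quot.mk P.Fr (y : Ω)) hlift
  have : Finite P'.Face := Quot.finite _
  refine Nat.card_le_card_of_surjective F ?_
  intro f
  obtain ⟨x, rfl⟩ := Quot.exists_rep f
  by_cases hx : x ∈ P.E p
  · by_cases h1 : P.a1 x ∈ P.E p
    · by_cases h2 : P.a1 (P.a0 x) ∈ P.E p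
      · exfalso
        have e1 := a1_eq P p hp x hx h1
        have e2 := a1_eq P p hp _ (E0 P p x hx) h2
        obtain ⟨y, hy, hyw⟩ := hy0
        have hcase : P.w x = P.w y ∨ P.w (P.a0 x) = P.w y := by
          rcases w_E P p x hx with ⟨h, h'⟩ | ⟨h, h'⟩
          · rcases hyw with hw | hw
            · left; rw [h, hw]
            · right; rw [h', hw]
          · rcases hyw with hw | hw
            · right; rw [h', hw]
            · left; rw [h, hw]
        rcases hcase with hw | hw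
        · rcases only P x e1 y hw with h | h
          · exact hy (h ▸ hx)
          · exact hy (h ▸ E2 P p x hx)
        · rcases only P _ e2 y hw with h | h
          · exact hy (h ▸ E0 P p x hx)
          · exact hy (h ▸ E2 P p _ (E0 P p x hx))
      · refine ⟨Quot.mk _ ⟨P.a1 (P.a0 x), h2⟩, ?_⟩
        show Quot.mk P.Fr (P.a1 (P.a0 x)) = Quot.mk P.Fr x
        rw [s1, s0]
    · refine ⟨Quot.mk _ ⟨P.a1 x, h1⟩, ?_⟩
      show Quot.mk P.Fr (P.a1 x) = Quot.mk P.Fr x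
      rw [s1]
  · exact ⟨Quot.mk _ ⟨x, hx⟩, rfl⟩

end KBG
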