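import Pool.Agent.KBG.Stmts

/-!
# KBG, module DEL: deletion of an edge of a flag map
-/

set_option autoImplicit false

namespace KBG

open Set

namespace DELaux

variable {Ω W : Type} (P : PM Ω W) (p : Ω)

theorem mem_E (x : Ω) : x ∈ P.E p ↔ x = p ∨ x = P.a2 p ∨ x = P.a0 p ∨ x = P.a2 (P.a0 p) := by
  unfold PM.E
  rw [P.c02 p]
  simp only [mem_insert_iff, mem_singleton_iff]
  tauto

theorem a0_mem {x : Ω} (h : x ∈ P.E p) : P.a0 x ∈ P.E p := by
  rw [mem_E] at h ⊢
  rcases h with rfl | rfl | rfl | rfl
  · exact Or.inr (Or.inr (Or.inl rfl))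
  · rw [P.c02]
    exact Or.inr (Or.inr (Or.inr rfl))
  · rw [P.i0]
    exact Or.inl rfl
  · rw [← P.c02, P.i0]
    exact Or.inr (Or.inl rfl)

theorem a2_mem {x : Ω} (h : x ∈ P.E p) : P.a2 x ∈ P.E p := by
  rw [mem_E] at h ⊢
  rcases h with rfl | rfl | rfl | rfl
  · exact Or.inr (Or.inl rfl)
  · rw [P.i2]
    exact Or.inl rfl
  · exact Or.inr (Or.inr (Or.inr rfl))
  · rw [P.i2]
    exact Or.inr (Or.inr (Or.inl rfl))

theorem a0_notMem {x : Ω} (h : x ∉ P.E p) : P.a0 x ∉ P.E p := fun h' =>
  h (by have := a0_mem P p h'; rwa [P.i0] at this)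

theorem a2_notMem {x : Ω} (h : x ∉ P.E p) : P.a2 x ∉ P.E p := fun h' =>
  h (by have := a2_mem P p h'; rwa [P.i2] at this)

/-- The face of a flag. -/
def fc (x : Ω) : P.Face := Quot.mk _ x

theorem fc_a0 (x : Ω) : fc P (P.a0 x) = fc P x :=
  (Quot.sound (show P.Fr x (P.a0 x) from Or.inl rfl)).symm

theorem fc_a1 (x : Ω) : fc P (P.a1 x) = fc P x :=
  (Quot.sound (show P.Fr x (P.a1 x) from Or.inr rfl)).symm

open Classical in
/-- The map of the faces. -/
noncomputable def m (F : P.Face) : P.Face := if F = fc P (P.a2 p) then fc P p else F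

theorem m_a2 : m P p (fc P (P.a2 p)) = fc P p := by
  unfold m
  rw [if_pos rfl]

theorem m_p : m P p (fc P p) = fc P p := by
  unfold m
  split <;> rfl

theorem fc_a2a0 : fc P (P.a2 (P.a0 p)) = fc P (P.a2 p) := by
  rw [← P.c02, fc_a0]

/-- On the four flags the value is the face of `p`. -/
theorem m_E {x : Ω} (h : x ∈ P.E p) : m P p (fc P x) = fc P p := by
  rw [mem_E] at h
  rcases h with rfl | rfl | rfl | rfl
  · exact m_p P x
  · exact m_a2 P p
  · rw [fc_a0]
    exact m_p P p
  · rw [fc_a2a0]
    exact m_a2 P p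

end DELaux

open DELaux in
/-- Deletion of an edge. -/
theorem t_DEL : M_DEL := by
  intro hS Ω W _ P p hy
  have hq1 : P.a0 p ≠ p := P.n0 p
  have hq2 : P.a0 p ≠ P.a2 p := by
    intro h
    apply P.n02 p
    rw [← h, P.i0]
  obtain ⟨hA, hB, hC⟩ := hS Ω P.a1 P.a2 p (P.a0 p) P.i1 P.i2 P.n1 P.n2 hq1 hq2 (P.E p) (mem_E P p)
  have hw : ∀ y, y ∉ P.E p → P.w (sk P.a1 P.a2 (P.E p) y) = P.w y := by
    intro y hy
    have := hB (fun x => P.w x = P.w y) (fun x => by rw [P.w1]) (fun x _ => by rw [P.w2]) y hy
    exact this.2 rfl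
  let P' : PM {y : Ω // y ∉ P.E p} W :=
    { a0 := fun y => ⟨P.a0 y, a0_notMem P p y.2⟩
      a1 := fun y => ⟨sk P.a1 P.a2 (P.E p) y, (hA y y.2).1⟩
      a2 := fun y => ⟨P.a2 y, a2_notMem P p y.2⟩
      w := fun y => P.w y
      i0 := fun y => Subtype.ext (P.i0 y)
      i1 := fun y => Subtype.ext (hA y y.2).2.1
      i2 := fun y => Subtype.ext (P.i2 y)
      n0 := fun y h => P.n0 y (congrArg Subtype.val h)
      n1 := fun y h => (hA y y.2).2.2 (congrArg Subtype.val h)
      n2 := fun y h => P.n2 y (congrArg Subtype.val h)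
      n02 := fun y h => P.n02 y (congrArg Subtype.val h)
      c02 := fun y => Subtype.ext (P.c02 y)
      w1 := fun y => hw y y.2
      w2 := fun y => P.w2 y
      vtx := by
        intro g h1 h2 x y hxy hx
        obtain ⟨g', k1, k2, k3⟩ := hC (fun z => ∃ h : z ∉ P.E p, g ⟨z, h⟩)
          (fun z hz => by
            have := h1 ⟨z, hz⟩
            constructor
            · rintro ⟨_, h⟩
              exact ⟨hz, this.1 h⟩
            · rintro ⟨_, h⟩
              exact ⟨(hA z hz).1, this.2 h⟩)
          (fun z hz => by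
            have := h2 ⟨z, hz⟩
            constructor
            · rintro ⟨_, h⟩
              exact ⟨hz, this.1 h⟩
            · rintro ⟨_, h⟩
              exact ⟨a2_notMem P p hz, this.2 h⟩)
        have h3 := P.vtx g' k1 k2 x y hxy ((k3 x x.2).2 ⟨x.2, hx⟩)
        obtain ⟨_, h4⟩ := (k3 y y.2).1 h3
        exact h4 }
  refine ⟨P', fun y => rfl, fun y => rfl, ?_⟩
  -- the map of the new faces
  let φ : P'.Face → P.Face := Quot.lift (fun y => m P p (fc P y)) (by
    rintro x y (rfl | rfl)
    · change m P p (fc P x) = m P p (fc P (P.a0 x))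
      rw [fc_a0]
    · change m P p (fc P x) = m P p (fc P (sk P.a1 P.a2 (P.E p) x))
      have := hB (fun z => m P p (fc P z) = m P p (fc P x)) (fun z => by rw [fc_a1])
        (fun z hz => by rw [m_E P p hz, m_E P p (a2_mem P p hz)]) x x.2
      exact (this.2 rfl).symm)
  have hφ : ∀ (y : Ω) (hy : y ∉ P.E p), φ (Quot.mk _ ⟨y, hy⟩) = m P p (fc P y) := fun _ _ => rfl
  have hsurj : Function.Surjective fun z : Option P'.Face => z.elim (fc P (P.a2 p)) φ := by
    intro F
    by_cases hF : F = fc P (P.a2 p)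
    · exact ⟨none, hF.symm⟩
    · by_cases h1 : ∃ y, y ∉ P.E p ∧ fc P y = F
      · obtain ⟨y, h2, h3⟩ := h1
        refine ⟨some (Quot.mk _ ⟨y, h2⟩), ?_⟩
        change m P p (fc P y) = F
        unfold m
        rw [h3, if_neg hF]
      · have hall : ∀ y, fc P y = F → y ∈ P.E p := fun y h => by
          by_contra hc
          exact h1 ⟨y, hc, h⟩
        have hFp : F = fc P p := by
          obtain ⟨x, rfl⟩ := Quot.exists_rep F
          have h2 := hall x rfl
          rw [mem_E] at h2
          rcases h2 with rfl | rfl | rfl | rfl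
          · rfl
          · exact absurd rfl hF
          · exact fc_a0 P p
          · exact absurd (fc_a2a0 P p) hF
        by_cases h4 : ∃ y, y ∉ P.E p ∧ fc P y = fc P (P.a2 p)
        · obtain ⟨y, h2, h3⟩ := h4
          refine ⟨some (Quot.mk _ ⟨y, h2⟩), ?_⟩
          change m P p (fc P y) = F
          rw [h3, m_a2, hFp]
        · exfalso
          have hall2 : ∀ y, fc P y = fc P (P.a2 p) → y ∈ P.E p := fun y h => by
            by_contra hc
            exact h4 ⟨y, hc, h⟩
          have e1 : P.a1 p = P.a0 p := by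
            have h2 := hall (P.a1 p) (by rw [fc_a1, hFp])
            rw [mem_E] at h2
            rcases h2 with h | h | h | h
            · exact absurd h (P.n1 p)
            · exact absurd (by rw [hFp, ← fc_a1, h]) hF
            · exact h
            · exact absurd (by rw [hFp, ← fc_a1, h, fc_a2a0]) hF
          have e2 : P.a1 (P.a2 p) = P.a2 (P.a0 p) := by
            have h2 := hall2 (P.a1 (P.a2 p)) (fc_a1 P _)
            rw [mem_E] at h2
            rcases h2 with h | h | h | h
            · exact absurd (by rw [hFp, ← fc_a1 P (P.a2 p), h]) hF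
            · exact absurd h (P.n1 _)
            · exact absurd (by rw [hFp, ← fc_a1 P (P.a2 p), h, fc_a0]) hF
            · exact h
          have hin : ∀ x, x ∈ P.E p → P.a1 x ∈ P.E p := by
            intro x hx
            rw [mem_E] at hx
            rcases hx with rfl | rfl | rfl | rfl
            · rw [e1, mem_E]
              exact Or.inr (Or.inr (Or.inl rfl))
            · rw [e2, mem_E]
              exact Or.inr (Or.inr (Or.inr rfl))
            · rw [← e1, P.i1, mem_E]
              exact Or.inl rfl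
            · rw [← e2, P.i1, mem_E]
              exact Or.inr (Or.inl rfl)
          obtain ⟨y, hy1, hy2⟩ := hy
          apply hy1
          refine P.vtx (fun x => x ∈ P.E p) (fun x => ⟨fun h => ?_, hin x⟩)
            (fun x => ⟨fun h => ?_, a2_mem P p⟩) p y hy2.symm ((mem_E P p p).2 (Or.inl rfl))
          · have := hin _ h
            rwa [P.i1] at this
          · have := a2_mem P p h
            rwa [P.i2] at this
  have hfin : Finite P'.Face := inferInstanceAs (Finite (Quot P'.Fr))
  have h1 := Nat.card_le_card_of_surjective _ hsurj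
  rwa [Finite.card_option] at h1

end KBG
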