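import Pool.Agent.KR.Defs

/-!
# Graphs in the Klein bottle: definitions (project KBG, MP_b1567b_co)

From the topological embedding of the frozen statement to a flag map with nonnegative Euler
characteristic.
-/

set_option autoImplicit false

namespace KBG

open Set

/-! ### Connected sets of a relation -/

/-- The set `A` is connected for the relation `H`. -/
def Cn {T : Type} (H : T → T → Prop) (A : Set T) : Prop :=
  ∀ g : T → Prop, (∀ s ∈ A, ∀ t ∈ A, H s t → g s → g t) → ∀ s ∈ A, ∀ t ∈ A, g s → g t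

/-! ### Flag systems of multigraphs -/

/-- A map on a closed surface, given by its flags; loops and parallel edges are allowed. The vertices
are elements of `W` (not necessarily all of them). -/
structure PM (Ω W : Type) where
  /-- change the vertex -/
  a0 : Ω → Ω
  /-- change the edge -/
  a1 : Ω → Ω
  /-- change the face -/
  a2 : Ω → Ω
  /-- vertex of a flag -/
  w : Ω → W
  i0 : ∀ x, a0 (a0 x) = x
  i1 : ∀ x, a1 (a1 x) = x
  i2 : ∀ x, a2 (a2 x) = x
  n0 : ∀ x, a0 x ≠ x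
  n1 : ∀ x, a1 x ≠ x
  n2 : ∀ x, a2 x ≠ x
  n02 : ∀ x, a0 (a2 x) ≠ x
  c02 : ∀ x, a0 (a2 x) = a2 (a0 x)
  w1 : ∀ x, w (a1 x) = w x
  w2 : ∀ x, w (a2 x) = w x
  /-- the flags at a vertex form one orbit of `a1`, `a2` -/
  vtx : ∀ g : Ω → Prop, (∀ x, g (a1 x) ↔ g x) → (∀ x, g (a2 x) ↔ g x) →
    ∀ x y, w x = w y → g x → g y

namespace PM

variable {Ω W : Type} (P : PM Ω W)

/-- two flags are related when `a0` or `a1` maps one to the other -/
def Fr (x y : Ω) : Prop := y = P.a0 x ∨ y = P.a1 x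

/-- a face is an orbit of `a0`, `a1` -/
def Face : Type := Quot P.Fr

/-- the Euler characteristic is nonnegative -/
def EulerNonneg : Prop := Nat.card Ω ≤ 4 * (Nat.card W + Nat.card P.Face)

/-- adjacency (or equality at a loop) of vertices -/
def H (s t : W) : Prop := ∃ x, P.w x = s ∧ P.w (P.a0 x) = t

/-- the four flags of the edge of `p` -/
def E (p : Ω) : Set Ω := {p, P.a0 p, P.a2 p, P.a0 (P.a2 p)}

end PM

open Classical in
/-- Go from `y` by `σ`; as long as this leads to `e`, continue by `b` and `σ` (at most twice). -/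
noncomputable def sk {Ω : Type} (σ b : Ω → Ω) (e : Set Ω) (y : Ω) : Ω :=
  if σ y ∉ e then σ y
  else if σ (b (σ y)) ∉ e then σ (b (σ y))
  else σ (b (σ (b (σ y))))

/-! ### The Klein bottle -/

/-- The Klein bottle of the frozen statement `S10861`. -/
abbrev K : Type := Quot (fun p q : ℝ × ℝ =>
  ∃ m n : ℤ, q.1 = p.1 + (m : ℝ) ∧ q.2 = (-1 : ℝ) ^ m * p.2 + (n : ℝ))

/-- The projection of the plane. -/
def proj (p : ℝ × ℝ) : K := Quot.mk _ p

/-- `G` has a topological embedding in the Klein bottle, as in the frozen statement `S10861`. -/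
def Emb {V : Type} (G : SimpleGraph V) : Prop :=
  ∃ φ : V → Quot (fun p q : ℝ × ℝ =>
          ∃ m n : ℤ, q.1 = p.1 + (m : ℝ) ∧ q.2 = (-1 : ℝ) ^ m * p.2 + (n : ℝ)),
      Function.Injective φ ∧
      ∃ γ : ∀ u v : V, Path (φ u) (φ v),
        (∀ u v, G.Adj u v → Function.Injective ⇑(γ u v)) ∧
        (∀ u v w, G.Adj u v → ∀ t : unitInterval,
            (0 : ℝ) < (t : ℝ) → (t : ℝ) < 1 → γ u v t ≠ φ w) ∧
        (∀ u v u' v', G.Adj u v → G.Adj u' v' → s(u, v) ≠ s(u', v') →
          ∀ t t' : unitInterval, (0 : ℝ) < (t : ℝ) → (t : ℝ) < 1 →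
            (0 : ℝ) < (t' : ℝ) → (t' : ℝ) < 1 → γ u v t ≠ γ u' v' t')

/-! ### Squares -/

/-- The closed square `(i, j)` of side `1 / N` in the plane. -/
def Sq0 (N : ℕ) (i j : ℤ) : Set (ℝ × ℝ) :=
  {p | (i : ℝ) ≤ N * p.1 ∧ N * p.1 ≤ i + 1 ∧ (j : ℝ) ≤ N * p.2 ∧ N * p.2 ≤ j + 1}

/-- The squares of side `1 / N` of the Klein bottle. -/
abbrev Tl (N : ℕ) : Type := Fin N × ZMod N

/-- The class of a square: `(i, j)`, `(i + N, - j - 1)`, `(i, j + N)` are the same square. -/
def cl (N : ℕ) [NeZero N] (i j : ℤ) : Tl N :=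
  (⟨(i % (N : ℤ)).toNat, by
      have h1 : (0 : ℤ) < N := by exact_mod_cast Nat.pos_of_ne_zero (NeZero.ne N)
      have h2 := Int.emod_nonneg i h1.ne'
      have h3 := Int.emod_lt_of_pos i h1
      omega⟩,
    if Even (i / (N : ℤ)) then (j : ZMod N) else ((-j - 1 : ℤ) : ZMod N))

/-- The closed square `t` of the Klein bottle. -/
def Sq (N : ℕ) [NeZero N] (t : Tl N) : Set K := proj '' Sq0 N (t.1.val : ℤ) (t.2.val : ℤ)

/-- The squares that meet `C`. -/
def Sn (N : ℕ) [NeZero N] (C : Set K) : Set (Tl N) := {t | (Sq N t ∩ C).Nonempty}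

end KBG
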