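import Pool.Agent.KBG.Stmts

/-!
# Module FIN of the project KBG: assembly
-/

set_option autoImplicit false

namespace KBG

open Set

namespace FINaux

theorem cont_proj : Continuous proj := continuous_quot_mk

theorem conn_univ : IsPreconnected (univ : Set K) := by
  have h : (univ : Set K) = proj '' univ := by
    rw [image_univ]
    exact (Set.range_eq_univ.2 Quot.mk_surjective).symm
  rw [h]
  exact isPreconnected_univ.image proj cont_proj.continuousOn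

theorem floor_in {N : ℕ} (hN : 0 < N) {x : ℝ} (h0 : 0 ≤ x) (h1 : x < 1) :
    0 ≤ ⌊(N : ℝ) * x⌋ ∧ ⌊(N : ℝ) * x⌋ < N := by
  have hN' : (0 : ℝ) < N := by exact_mod_cast hN
  refine ⟨Int.floor_nonneg.2 (by positivity), ?_⟩
  rw [Int.floor_lt]
  have : (N : ℝ) * x < N * 1 := by gcongr
  simpa using this

/-- Every point is in a square. -/
theorem exists_sq (N : ℕ) [NeZero N] (c : K) : ∃ t : Tl N, c ∈ Sq N t := by
  have hN : 0 < N := Nat.pos_of_ne_zero (NeZero.ne N)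
  obtain ⟨p, rfl⟩ : ∃ p, proj p = c := Quot.mk_surjective c
  obtain ⟨m, hm⟩ : ∃ m : ℤ, m = -⌊p.1⌋ := ⟨_, rfl⟩
  obtain ⟨n, hn⟩ : ∃ n : ℤ, n = -⌊(-1 : ℝ) ^ m * p.2⌋ := ⟨_, rfl⟩
  obtain ⟨x, hx⟩ : ∃ x : ℝ, x = p.1 + (m : ℝ) := ⟨_, rfl⟩
  obtain ⟨y, hy⟩ : ∃ y : ℝ, y = (-1 : ℝ) ^ m * p.2 + (n : ℝ) := ⟨_, rfl⟩
  have hx' : x = Int.fract p.1 := by
    rw [hx, hm, Int.fract]
    push_cast
    ring
  have hy' : y = Int.fract ((-1 : ℝ) ^ m * p.2) := by
    rw [hy, hn, Int.fract]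
    push_cast
    ring
  have hx0 : 0 ≤ x := by rw [hx']; exact Int.fract_nonneg _
  have hx1 : x < 1 := by rw [hx']; exact Int.fract_lt_one _
  have hy0 : 0 ≤ y := by rw [hy']; exact Int.fract_nonneg _
  have hy1 : y < 1 := by rw [hy']; exact Int.fract_lt_one _
  obtain ⟨i0, i1⟩ := floor_in hN hx0 hx1
  obtain ⟨j0, j1⟩ := floor_in hN hy0 hy1
  have hpr : proj p = proj (x, y) := Quot.sound ⟨m, n, hx, hy⟩
  obtain ⟨i, hi⟩ := Int.eq_ofNat_of_zero_le i0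
  obtain ⟨j, hj⟩ := Int.eq_ofNat_of_zero_le j0
  have hiN : i < N := by omega
  have hjN : j < N := by omega
  refine ⟨(⟨i, hiN⟩, (j : ZMod N)), ?_⟩
  rw [hpr]
  refine ⟨(x, y), ?_, rfl⟩
  have hv : ((j : ZMod N)).val = j := by
    rw [ZMod.val_natCast, Nat.mod_eq_of_lt hjN]
  have a1 := Int.floor_le ((N : ℝ) * x)
  have a2 := (Int.lt_floor_add_one ((N : ℝ) * x)).le
  have a3 := Int.floor_le ((N : ℝ) * y)
  have a4 := (Int.lt_floor_add_one ((N : ℝ) * y)).le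
  rw [hi] at a1 a2
  rw [hj] at a3 a4
  unfold Sq0
  simp only [mem_setOf_eq, hv]
  exact ⟨a1, a2, a3, a4⟩

theorem Sn_univ (N : ℕ) [NeZero N] : Sn N univ = univ := by
  have hN : (0 : ℝ) < N := by
    have : 0 < N := Nat.pos_of_ne_zero (NeZero.ne N)
    exact_mod_cast this
  ext t
  simp only [Sn, inter_univ, mem_setOf_eq, mem_univ, iff_true]
  refine ⟨proj (((t.1.val : ℤ) : ℝ) / N, ((t.2.val : ℤ) : ℝ) / N), ?_⟩
  refine ⟨_, ?_, rfl⟩
  unfold Sq0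
  simp only [mem_setOf_eq]
  rw [mul_div_cancel₀ _ hN.ne', mul_div_cancel₀ _ hN.ne']
  refine ⟨le_rfl, by linarith, le_rfl, by linarith⟩

theorem Sn_nonempty (N : ℕ) [NeZero N] {C D : Set K} (h : (C ∩ D).Nonempty) :
    (Sn N C ∩ Sn N D).Nonempty := by
  obtain ⟨c, h1, h2⟩ := h
  obtain ⟨t, ht⟩ := exists_sq N c
  exact ⟨t, ⟨c, ht, h1⟩, ⟨c, ht, h2⟩⟩

end FINaux

open FINaux in
theorem t_FIN : M_FIN := by
  intro hIND hGRD hLAB hKT2 hSCN hSEP hARC V _ G hconn hnt hemb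
  obtain ⟨E, _, s, t, X, Y, hadj, hst, hX, hY, dX, dY, dYX, hint⟩ := hARC V G hemb
  haveI : T2Space K := hKT2
  have cX : ∀ v, IsClosed (X v) := fun v => (hX v).1.isClosed
  have cY : ∀ e, IsClosed (Y e) := fun e => (hY e).1.isClosed
  have e1 : ∀ᶠ N : ℕ in Filter.atTop, ∀ u v, u ≠ v →
      Disjoint (Sn (N + 1) (X u)) (Sn (N + 1) (X v)) := by
    rw [Filter.eventually_all]
    intro u
    rw [Filter.eventually_all]
    intro v
    rw [Filter.eventually_imp_distrib_left]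
    intro h
    exact hSEP _ _ (cX u) (cX v) (dX u v h)
  have e2 : ∀ᶠ N : ℕ in Filter.atTop, ∀ e f, e ≠ f →
      Disjoint (Sn (N + 1) (Y e)) (Sn (N + 1) (Y f)) := by
    rw [Filter.eventually_all]
    intro e
    rw [Filter.eventually_all]
    intro f
    rw [Filter.eventually_imp_distrib_left]
    intro h
    exact hSEP _ _ (cY e) (cY f) (dY e f h)
  have e3 : ∀ᶠ N : ℕ in Filter.atTop, ∀ e v, v ≠ s e → v ≠ t e →
      Disjoint (Sn (N + 1) (Y e)) (Sn (N + 1) (X v)) := by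
    rw [Filter.eventually_all]
    intro e
    rw [Filter.eventually_all]
    intro v
    rw [Filter.eventually_imp_distrib_left]
    intro h
    rw [Filter.eventually_imp_distrib_left]
    intro h'
    exact hSEP _ _ (cY e) (cX v) (dYX e v h h')
  obtain ⟨N, f1, f2, f3⟩ := (e1.and (e2.and e3)).exists
  obtain ⟨Ω, _, P, hE, hH⟩ := hGRD (N + 1)
  have hsym : ∀ x y, P.H x y → P.H y x := by
    rintro x y ⟨z, h1, h2⟩
    exact ⟨P.a0 z, h2, by rw [P.i0]; exact h1⟩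
  have hcn : ∀ C : Set K, IsPreconnected C → Cn P.H (Sn (N + 1) C) := hSCN (N + 1) P.H hsym hH
  have hcu : Cn P.H (univ : Set (Tl (N + 1))) := by
    have h := hcn univ conn_univ
    rwa [Sn_univ] at h
  haveI : Nonempty V := hnt.to_nonempty
  obtain ⟨β, h1, h2⟩ := hLAB (Tl (N + 1)) V E P.H hsym hcu s t (fun v => Sn (N + 1) (X v))
    (fun e => Sn (N + 1) (Y e)) hst
    (fun v => ⟨hcn _ (hX v).2.1, by
      have h := Sn_nonempty (N + 1) (C := X v) (D := X v) (by rw [inter_self]; exact (hX v).2.2)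
      rwa [inter_self] at h⟩)
    (fun e => hcn _ (hY e).2) f1 f2 f3
    (fun e => ⟨Sn_nonempty _ (hint e).1, Sn_nonempty _ (hint e).2⟩)
  refine hIND Ω (Tl (N + 1)) V P G β hE hconn hnt h1 ?_
  intro u v huv
  obtain ⟨e, he⟩ := hadj u v huv
  obtain ⟨x, y, hx, hy, hxy⟩ := h2 e
  rcases he with ⟨g1, g2⟩ | ⟨g1, g2⟩
  · obtain ⟨z, z1, z2⟩ := hxy
    exact ⟨z, by rw [z1, hx, g1], by rw [z2, hy, g2]⟩
  · obtain ⟨z, z1, z2⟩ := hsym _ _ hxy
    exact ⟨z, by rw [z1, hy, g2], by rw [z2, hx, g1]⟩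

end KBG
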