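import Pool.Agent.KBG.Stmts

/-!
# The flag map of the square grid of the Klein bottle (project KBG, module GRD)
-/

set_option autoImplicit false
set_option linter.unusedSectionVars false

namespace KBG

open Set

namespace GRDaux

/-- the four directions -/
inductive Dir : Type
  | R | U | L | D
  deriving DecidableEq

instance : Fintype Dir := ⟨{Dir.R, Dir.U, Dir.L, Dir.D}, fun x => by cases x <;> decide⟩

lemma cardDir : Fintype.card Dir = 4 := rfl

/-- counterclockwise -/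
def Dir.nx : Dir → Dir
  | .R => .U
  | .U => .L
  | .L => .D
  | .D => .R

/-- clockwise -/
def Dir.pv : Dir → Dir
  | .R => .D
  | .U => .R
  | .L => .U
  | .D => .L

abbrev Fl (N : ℕ) : Type := Tl N × Dir × Bool

variable (N : ℕ) [NeZero N]

def zN : Fin N := ⟨0, Nat.pos_of_ne_zero (NeZero.ne N)⟩

def lN : Fin N := ⟨N - 1, Nat.sub_lt (Nat.pos_of_ne_zero (NeZero.ne N)) Nat.one_pos⟩

variable {N}

def R0 (t : Tl N) (ε : Bool) : Fl N :=
  if h : t.1.val + 1 < N then ((⟨t.1.val + 1, h⟩, t.2), Dir.L, !ε) else ((zN N, - t.2 - 1), Dir.L, ε)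

def L0 (t : Tl N) (ε : Bool) : Fl N :=
  if 0 < t.1.val then ((⟨t.1.val - 1, lt_of_le_of_lt (Nat.sub_le _ _) t.1.isLt⟩, t.2), Dir.R, !ε)
  else ((lN N, - t.2 - 1), Dir.R, ε)

def b0 : Fl N → Fl N
  | (t, Dir.R, ε) => R0 t ε
  | (t, Dir.U, ε) => ((t.1, t.2 + 1), Dir.D, !ε)
  | (t, Dir.L, ε) => L0 t ε
  | (t, Dir.D, ε) => ((t.1, t.2 - 1), Dir.U, !ε)

def b1 : Fl N → Fl N
  | (t, d, true) => (t, d.nx, false)
  | (t, d, false) => (t, d.pv, true)

def b2 : Fl N → Fl N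
  | (t, d, ε) => (t, d, !ε)

/-- the corner `(i, j)`, where `i ≤ N` -/
def cr (i : ℕ) (j : ZMod N) : Tl N :=
  if h : i < N then (⟨i, h⟩, j) else (zN N, - j)

def cn : Fl N → Tl N
  | (t, Dir.R, true) => cr (t.1.val + 1) (t.2 + 1)
  | (t, Dir.U, false) => cr (t.1.val + 1) (t.2 + 1)
  | (t, Dir.U, true) => cr t.1.val (t.2 + 1)
  | (t, Dir.L, false) => cr t.1.val (t.2 + 1)
  | (t, Dir.L, true) => cr t.1.val t.2
  | (t, Dir.D, false) => cr t.1.val t.2
  | (t, Dir.D, true) => cr (t.1.val + 1) t.2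
  | (t, Dir.R, false) => cr (t.1.val + 1) t.2

lemma cr_lt {i : ℕ} (h : i < N) (j : ZMod N) : cr i j = (⟨i, h⟩, j) := dif_pos h

lemma cr_ge {i : ℕ} (h : ¬ i < N) (j : ZMod N) : cr i j = (zN N, - j) := dif_neg h

lemma R0_lt {t : Tl N} (h : t.1.val + 1 < N) (ε : Bool) :
    R0 t ε = ((⟨t.1.val + 1, h⟩, t.2), Dir.L, !ε) := dif_pos h

lemma R0_ge {t : Tl N} (h : ¬ t.1.val + 1 < N) (ε : Bool) :
    R0 t ε = ((zN N, - t.2 - 1), Dir.L, ε) := dif_neg h

lemma L0_pos {t : Tl N} (h : 0 < t.1.val) (ε : Bool) :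
    L0 t ε = ((⟨t.1.val - 1, lt_of_le_of_lt (Nat.sub_le _ _) t.1.isLt⟩, t.2), Dir.R, !ε) := if_pos h

lemma L0_zero {t : Tl N} (h : ¬ 0 < t.1.val) (ε : Bool) :
    L0 t ε = ((lN N, - t.2 - 1), Dir.R, ε) := if_neg h

lemma LR (t : Tl N) (ε : Bool) : b0 (R0 t ε) = (t, Dir.R, ε) := by
  obtain ⟨i, j⟩ := t
  by_cases h : i.val + 1 < N
  · rw [R0_lt (t := (i, j)) h]
    show L0 _ _ = _
    rw [L0_pos (t := ((⟨i.val + 1, h⟩ : Fin N), j)) (Nat.succ_pos _)]
    simp
  · rw [R0_ge (t := (i, j)) h]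
    show L0 _ _ = _
    rw [L0_zero (t := (zN N, - j - 1)) (lt_irrefl 0)]
    have h1 : lN N = i := by
      apply Fin.ext
      show N - 1 = i.val
      have := i.isLt
      omega
    rw [h1]
    simp

lemma RL (t : Tl N) (ε : Bool) : b0 (L0 t ε) = (t, Dir.L, ε) := by
  obtain ⟨i, j⟩ := t
  by_cases h : 0 < i.val
  · rw [L0_pos (t := (i, j)) h]
    show R0 _ _ = _
    have h2 : i.val - 1 + 1 < N := by
      have := i.isLt
      omega
    rw [R0_lt (t := ((⟨i.val - 1, lt_of_le_of_lt (Nat.sub_le _ _) i.isLt⟩ : Fin N), j)) h2]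
    have h3 : (⟨i.val - 1 + 1, h2⟩ : Fin N) = i := by
      apply Fin.ext
      show i.val - 1 + 1 = i.val
      omega
    simp [h3]
  · rw [L0_zero (t := (i, j)) h]
    show R0 _ _ = _
    have h2 : ¬ ((lN N).val + 1 < N) := by
      show ¬ (N - 1 + 1 < N)
      omega
    rw [R0_ge (t := (lN N, - j - 1)) h2]
    have h1 : zN N = i := by
      apply Fin.ext
      show 0 = i.val
      omega
    rw [h1]
    simp

lemma b00 (x : Fl N) : b0 (b0 x) = x := by
  obtain ⟨t, d, ε⟩ := x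
  cases d
  · exact LR t ε
  · simp [b0]
  · exact RL t ε
  · simp [b0]

lemma R0d (t : Tl N) (ε : Bool) : (R0 t ε).2.1 = Dir.L := by
  by_cases h : t.1.val + 1 < N
  · rw [R0_lt h]
  · rw [R0_ge h]

lemma L0d (t : Tl N) (ε : Bool) : (L0 t ε).2.1 = Dir.R := by
  by_cases h : 0 < t.1.val
  · rw [L0_pos h]
  · rw [L0_zero h]

lemma b0d (x : Fl N) : (b0 x).2.1 ≠ x.2.1 := by
  obtain ⟨t, d, ε⟩ := x
  cases d
  · show (R0 t ε).2.1 ≠ Dir.R
    rw [R0d]; decide
  · show Dir.D ≠ Dir.U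
    decide
  · show (L0 t ε).2.1 ≠ Dir.L
    rw [L0d]; decide
  · show Dir.U ≠ Dir.D
    decide

lemma b11 (x : Fl N) : b1 (b1 x) = x := by
  obtain ⟨t, d, ε⟩ := x
  cases d <;> cases ε <;> rfl

lemma b22 (x : Fl N) : b2 (b2 x) = x := by
  obtain ⟨t, d, ε⟩ := x
  cases ε <;> rfl

lemma b02 (x : Fl N) : b0 (b2 x) = b2 (b0 x) := by
  obtain ⟨t, d, ε⟩ := x
  cases d
  · show R0 t (!ε) = b2 (R0 t ε)
    by_cases h : t.1.val + 1 < N
    · rw [R0_lt h, R0_lt h]; rfl
    · rw [R0_ge h, R0_ge h]; rfl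
  · rfl
  · show L0 t (!ε) = b2 (L0 t ε)
    by_cases h : 0 < t.1.val
    · rw [L0_pos h, L0_pos h]; rfl
    · rw [L0_zero h, L0_zero h]; rfl
  · rfl

lemma bn1 (x : Fl N) : b1 x ≠ x := by
  obtain ⟨t, d, ε⟩ := x
  intro h
  have := congrArg (fun z : Fl N => z.2.2) h
  cases ε <;> simp [b1] at this

lemma bn2 (x : Fl N) : b2 x ≠ x := by
  obtain ⟨t, d, ε⟩ := x
  intro h
  have := congrArg (fun z : Fl N => z.2.2) h
  cases ε <;> simp [b2] at this

lemma vt (g : Fl N → Prop) (h1 : ∀ x, g (b1 x) ↔ g x) (h2 : ∀ x, g (b2 x) ↔ g x) (t : Tl N)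
    (d : Dir) (ε : Bool) : g (t, d, ε) ↔ g (t, Dir.R, true) := by
  have e1 : g (t, Dir.R, false) ↔ g (t, Dir.R, true) := h2 (t, Dir.R, true)
  have e2 : g (t, Dir.U, false) ↔ g (t, Dir.R, true) := h1 (t, Dir.R, true)
  have e3 : g (t, Dir.U, true) ↔ g (t, Dir.U, false) := h2 (t, Dir.U, false)
  have e4 : g (t, Dir.L, false) ↔ g (t, Dir.U, true) := h1 (t, Dir.U, true)
  have e5 : g (t, Dir.L, true) ↔ g (t, Dir.L, false) := h2 (t, Dir.L, false)
  have e6 : g (t, Dir.D, false) ↔ g (t, Dir.L, true) := h1 (t, Dir.L, true)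
  have e7 : g (t, Dir.D, true) ↔ g (t, Dir.D, false) := h2 (t, Dir.D, false)
  cases d <;> cases ε <;> tauto

/-- the map of the square grid -/
def gr (N : ℕ) [NeZero N] : PM (Fl N) (Tl N) where
  a0 := b0
  a1 := b1
  a2 := b2
  w := Prod.fst
  i0 := b00
  i1 := b11
  i2 := b22
  n0 := fun x h => b0d x (by rw [h])
  n1 := bn1
  n2 := bn2
  n02 := fun x h => by
    have h3 := b0d (b2 x)
    rw [h] at h3
    exact h3 rfl
  c02 := b02
  w1 := fun x => by
    obtain ⟨t, d, ε⟩ := x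
    cases ε <;> rfl
  w2 := fun x => rfl
  vtx := fun g h1 h2 x y h hx => by
    obtain ⟨t, d, ε⟩ := x
    obtain ⟨s, d', ε'⟩ := y
    have h' : t = s := h
    subst h'
    exact (vt g h1 h2 t d' ε').2 ((vt g h1 h2 t d ε).1 hx)

lemma cn1 (x : Fl N) : cn (b1 x) = cn x := by
  obtain ⟨t, d, ε⟩ := x
  cases d <;> cases ε <;> rfl

lemma cnR (t : Tl N) (ε : Bool) : cn (R0 t ε) = cn (t, Dir.R, ε) := by
  obtain ⟨i, j⟩ := t
  by_cases h : i.val + 1 < N
  · rw [R0_lt (t := (i, j)) h]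
    cases ε <;> rfl
  · rw [R0_ge (t := (i, j)) h]
    have h0 : (zN N).val < N := (zN N).isLt
    cases ε
    · show cr (zN N).val (- j - 1 + 1) = cr (i.val + 1) j
      rw [cr_lt h0, cr_ge h]
      simp
    · show cr (zN N).val (- j - 1) = cr (i.val + 1) (j + 1)
      rw [cr_lt h0, cr_ge h]
      have : - j - 1 = - (j + 1) := by ring
      rw [this]

lemma cn0 (x : Fl N) : cn (b0 x) = cn x := by
  obtain ⟨t, d, ε⟩ := x
  cases d
  · exact cnR t ε
  · cases ε
    · rfl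
    · rfl
  · show cn (L0 t ε) = _
    have h := cnR (L0 t ε).1 (L0 t ε).2.2
    have h1 : ((L0 t ε).1, Dir.R, (L0 t ε).2.2) = L0 t ε := by
      rw [← L0d t ε]
    rw [h1] at h
    rw [← h]
    have h2 : R0 (L0 t ε).1 (L0 t ε).2.2 = b0 (L0 t ε) := by
      conv_rhs => rw [← h1]
      rfl
    rw [h2, RL]
  · cases ε
    · show cr t.1.val (t.2 - 1 + 1) = cr t.1.val t.2
      rw [sub_add_cancel]
    · show cr (t.1.val + 1) (t.2 - 1 + 1) = cr (t.1.val + 1) t.2
      rw [sub_add_cancel]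

/-- a face of the square grid has a corner -/
def fc (N : ℕ) [NeZero N] : (gr N).Face → Tl N :=
  Quot.lift cn (fun x y h => by
    rcases h with h | h
    · rw [h]; exact (cn0 x).symm
    · rw [h]; exact (cn1 x).symm)

lemma fc_surj : Function.Surjective (fc N) := by
  intro t
  refine ⟨Quot.mk _ (t, Dir.L, true), ?_⟩
  show cr t.1.val t.2 = t
  rw [cr_lt t.1.isLt]

lemma euler (N : ℕ) [NeZero N] : (gr N).EulerNonneg := by
  have : Finite (gr N).Face := by
    unfold PM.Face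
    infer_instance
  have h1 : Nat.card (Tl N) ≤ Nat.card (gr N).Face := Nat.card_le_card_of_surjective _ fc_surj
  have h2 : Nat.card (Fl N) = Nat.card (Tl N) * 8 := by
    rw [Nat.card_prod (Tl N) (Dir × Bool)]
    congr 1
    rw [Nat.card_eq_fintype_card]
    rfl
  show Nat.card (Fl N) ≤ 4 * (Nat.card (Tl N) + Nat.card (gr N).Face)
  omega

lemma cl_eq (i j : ℤ) (r : ℕ) (q : ℤ) (hr : r < N) (h : i = (N : ℤ) * q + r) :
    cl N i j = (⟨r, hr⟩, if Even q then (j : ZMod N) else ((-j - 1 : ℤ) : ZMod N)) := by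
  have h1 : (0 : ℤ) < N := by exact_mod_cast Nat.pos_of_ne_zero (NeZero.ne N)
  have h2 : i / (N : ℤ) = q := by
    rw [h, Int.mul_add_ediv_left _ _ h1.ne']
    rw [Int.ediv_eq_zero_of_lt (by positivity) (by exact_mod_cast hr)]
    ring
  have h3 : i % (N : ℤ) = r := by
    rw [h, Int.mul_add_emod_self_left]
    exact Int.emod_eq_of_lt (by positivity) (by exact_mod_cast hr)
  unfold cl
  rw [h2]
  refine Prod.ext (Fin.ext ?_) rfl
  show (i % (N : ℤ)).toNat = r
  rw [h3]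
  rfl

lemma adjR (i j : ℤ) : (gr N).H (cl N i j) (cl N (i + 1) j) := by
  have h1 : (0 : ℤ) < N := by exact_mod_cast Nat.pos_of_ne_zero (NeZero.ne N)
  obtain ⟨r, hr⟩ := Int.eq_ofNat_of_zero_le (Int.emod_nonneg i h1.ne')
  have hi : i = (N : ℤ) * (i / N) + r := by
    have := Int.mul_ediv_add_emod i N
    rw [hr] at this
    exact this.symm
  have hr' : r < N := by
    have := Int.emod_lt_of_pos i h1
    rw [hr] at this
    exact_mod_cast this
  generalize i / (N : ℤ) = q at hi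
  have e1 := cl_eq (N := N) i j r q hr' hi
  refine ⟨(cl N i j, Dir.R, true), rfl, ?_⟩
  show (R0 (cl N i j) true).1 = _
  by_cases h : r + 1 < N
  · have e2 := cl_eq (N := N) (i + 1) j (r + 1) q h (by push_cast; omega)
    rw [e2, e1]
    rw [R0_lt (t := (⟨r, hr'⟩, if Even q then (j : ZMod N) else ((-j - 1 : ℤ) : ZMod N))) h]
  · have hN : r + 1 = N := by omega
    have e2 := cl_eq (N := N) (i + 1) j 0 (q + 1) (Nat.pos_of_ne_zero (NeZero.ne N)) (by
      rw [hi]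
      have : ((r : ℤ) + 1) = N := by exact_mod_cast hN
      push_cast
      linarith)
    rw [e2, e1]
    rw [R0_ge (t := (⟨r, hr'⟩, if Even q then (j : ZMod N) else ((-j - 1 : ℤ) : ZMod N))) h]
    refine Prod.ext rfl ?_
    show - (if Even q then (j : ZMod N) else ((-j - 1 : ℤ) : ZMod N)) - 1 =
      if Even (q + 1) then (j : ZMod N) else ((-j - 1 : ℤ) : ZMod N)
    by_cases hq : Even q
    · rw [if_pos hq, if_neg (by rw [Int.even_add_one]; simpa using hq)]
      push_cast; ring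
    · rw [if_neg hq, if_pos (by rw [Int.even_add_one]; exact hq)]
      push_cast; ring

lemma adjU (i j : ℤ) : (gr N).H (cl N i j) (cl N i (j + 1)) := by
  by_cases hq : Even (i / (N : ℤ))
  · refine ⟨(cl N i j, Dir.U, true), rfl, ?_⟩
    show ((cl N i j).1, (cl N i j).2 + 1) = cl N i (j + 1)
    unfold cl
    simp only [if_pos hq]
    push_cast
    rfl
  · refine ⟨(cl N i j, Dir.D, true), rfl, ?_⟩
    show ((cl N i j).1, (cl N i j).2 - 1) = cl N i (j + 1)
    unfold cl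
    simp only [if_neg hq]
    refine Prod.ext rfl ?_
    push_cast
    ring

end GRDaux

open GRDaux in
theorem t_GRD : S_GRD := by
  intro N _
  exact ⟨Fl N, inferInstance, gr N, euler N, fun i j => ⟨adjR i j, adjU i j⟩⟩

end KBG
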