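import Pool.Agent.KBG.Stmts

/-!
# Graphs in the Klein bottle: minors of flag maps, the induction (IND)
-/

set_option autoImplicit false

namespace KBG

open Set

namespace INDaux

variable {Ω W : Type}

/-- The ends of the flags of one edge. -/
theorem E_ends (P : PM Ω W) {p x : Ω} (h : x ∈ P.E p) :
    (P.w x = P.w p ∧ P.w (P.a0 x) = P.w (P.a0 p)) ∨
      (P.w x = P.w (P.a0 p) ∧ P.w (P.a0 x) = P.w p) := by
  rcases h with rfl | rfl | rfl | rfl
  · exact Or.inl ⟨rfl, rfl⟩
  · exact Or.inr ⟨rfl, by rw [P.i0]⟩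
  · exact Or.inl ⟨P.w2 p, by rw [P.c02, P.w2]⟩
  · refine Or.inr ⟨by rw [P.c02, P.w2], ?_⟩
    rw [P.i0, P.w2]

theorem E_a0 (P : PM Ω W) {p x : Ω} (h : x ∈ P.E p) : P.a0 x ∈ P.E p := by
  rcases h with rfl | rfl | rfl | rfl
  · exact Or.inr (Or.inl rfl)
  · exact Or.inl (P.i0 p)
  · exact Or.inr (Or.inr (Or.inr rfl))
  · exact Or.inr (Or.inr (Or.inl (P.i0 _)))

theorem E_ncard (P : PM Ω W) (p : Ω) : (P.E p).ncard = 4 := by
  classical
  have h1 : P.a0 (P.a2 p) ≠ p := P.n02 p
  have h2 : P.a0 p ≠ p := P.n0 p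
  have h3 : P.a2 p ≠ p := P.n2 p
  have h4 : P.a0 p ≠ P.a2 p := by
    intro h
    apply h1
    rw [← h, P.i0]
  have h5 : P.a0 p ≠ P.a0 (P.a2 p) := by
    intro h
    apply h3
    have := congrArg P.a0 h
    rw [P.i0, P.i0] at this
    exact this.symm
  have h6 : P.a0 (P.a2 p) ≠ P.a2 p := P.n0 _
  have e : P.E p = ((({p, P.a0 p, P.a2 p, P.a0 (P.a2 p)} : Finset Ω)) : Set Ω) := by
    unfold PM.E
    simp
  rw [e, Set.ncard_coe_finset]
  rw [Finset.card_insert_of_notMem, Finset.card_insert_of_notMem, Finset.card_insert_of_notMem,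
    Finset.card_singleton]
  · simp only [Finset.mem_singleton]
    exact h6.symm
  · simp only [Finset.mem_insert, Finset.mem_singleton, not_or]
    exact ⟨h4, h5⟩
  · simp only [Finset.mem_insert, Finset.mem_singleton, not_or]
    exact ⟨h2.symm, h3.symm, h1.symm⟩

theorem card_compl [Finite Ω] (P : PM Ω W) (p : Ω) :
    Nat.card {y : Ω // y ∉ P.E p} + 4 = Nat.card Ω := by
  have h := Set.ncard_add_ncard_compl (P.E p)
  rw [E_ncard] at h
  have e : Nat.card {y : Ω // y ∉ P.E p} = (P.E p)ᶜ.ncard := rfl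
  rw [e]
  omega

theorem card_ne [Finite W] (v : W) : Nat.card {x : W // x ≠ v} + 1 = Nat.card W := by
  have h := Set.ncard_add_ncard_compl ({v} : Set W)
  rw [Set.ncard_singleton] at h
  have e : Nat.card {x : W // x ≠ v} = ({v} : Set W)ᶜ.ncard := rfl
  rw [e]
  omega

/-- Every vertex has a neighbour. -/
theorem exists_adj {V : Type} {G : SimpleGraph V} (hG : G.Connected) (hV : Nontrivial V) (u : V) :
    ∃ v, G.Adj u v := by
  obtain ⟨v, hv⟩ := exists_ne u
  obtain ⟨p⟩ := hG.preconnected u v
  cases p with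
  | nil => exact absurd rfl hv
  | cons h _ => exact ⟨_, h⟩

/-- The graph of the map is the given graph: the flag map. -/
theorem final {V : Type} [Finite Ω] [Finite W] [Finite V] (P : PM Ω W) (G : SimpleGraph V)
    (β : W → V) (hE : P.EulerNonneg) (hβ : Function.Bijective β)
    (hadj : ∀ u v, G.Adj u v → ∃ x, β (P.w x) = u ∧ β (P.w (P.a0 x)) = v)
    (h1 : ∀ x, G.Adj (β (P.w x)) (β (P.w (P.a0 x))))
    (h2 : ∀ x y, P.w x = P.w y → P.w (P.a0 x) = P.w (P.a0 y) → x = y ∨ x = P.a2 y) :
    ∃ (Ω' : Type) (_ : Finite Ω') (M : KR.GMap G Ω'), M.EulerNonneg := by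
  let M : KR.GMap G Ω :=
    { a0 := P.a0
      a1 := P.a1
      a2 := P.a2
      w := fun x => β (P.w x)
      i0 := P.i0
      i1 := P.i1
      i2 := P.i2
      n1 := P.n1
      n2 := P.n2
      c02 := P.c02
      w1 := fun x => by rw [P.w1]
      w2 := fun x => by rw [P.w2]
      vtx := fun g g1 g2 x y h => P.vtx g g1 g2 x y (hβ.1 h)
      adj := by
        intro u v
        constructor
        · exact hadj u v
        · rintro ⟨x, rfl, rfl⟩
          exact h1 x
      uniq := by
        intro x y hx hy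
        rcases h2 x y (hβ.1 hx) (hβ.1 hy) with h | h
        · exact Or.inl h.symm
        · right
          rw [h, P.i2] }
  refine ⟨Ω, inferInstance, M, ?_⟩
  have hc : Nat.card W = Nat.card V := Nat.card_congr (Equiv.ofBijective β hβ)
  unfold KR.GMap.EulerNonneg
  unfold PM.EulerNonneg at hE
  rw [hc] at hE
  exact hE

/-- Deletion of an edge which is not needed. -/
theorem del_step {V : Type} [Finite Ω] [Finite W] (hDEL : S_DEL) (P : PM Ω W) (G : SimpleGraph V)
    (β : W → V) (hE : P.EulerNonneg) (hβ : Function.Injective β) (p : Ω)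
    (hy : ∃ y, y ∉ P.E p ∧ P.w y = P.w p)
    (hadj : ∀ u v, G.Adj u v → ∃ x, x ∉ P.E p ∧ β (P.w x) = u ∧ β (P.w (P.a0 x)) = v) :
    ∃ P' : PM {y : Ω // y ∉ P.E p} W, P'.EulerNonneg ∧ (∀ v, Cn P'.H {x | β x = v}) ∧
      (∀ u v, G.Adj u v → ∃ x, β (P'.w x) = u ∧ β (P'.w (P'.a0 x)) = v) := by
  obtain ⟨P', h0, hw, hf⟩ := hDEL Ω W P p hy
  refine ⟨P', ?_, ?_, ?_⟩
  · have h1 := card_compl P p
    unfold PM.EulerNonneg at hE ⊢
    omega
  · intro v g _ s hs t ht h
    have : s = t := hβ (by rw [mem_ofPred_eq] at hs ht; rw [hs, ht])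
    rw [← this]
    exact h
  · intro u v huv
    obtain ⟨x, hx, h1, h2⟩ := hadj u v huv
    refine ⟨⟨x, hx⟩, ?_, ?_⟩
    · rw [hw]
      exact h1
    · rw [hw, h0]
      exact h2

/-- Contraction of an edge inside a fibre. -/
theorem con_step {V : Type} [Finite Ω] [Finite W] (hCON : S_CON) (P : PM Ω W) (G : SimpleGraph V)
    (β : W → V) (hE : P.EulerNonneg) (hG : G.Connected) (hV : Nontrivial V)
    (hfib : ∀ v, Cn P.H {x | β x = v})
    (hadj : ∀ u v, G.Adj u v → ∃ x, β (P.w x) = u ∧ β (P.w (P.a0 x)) = v)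
    (p : Ω) (hp : P.w p ≠ P.w (P.a0 p)) (hβp : β (P.w p) = β (P.w (P.a0 p))) :
    ∃ P' : PM {y : Ω // y ∉ P.E p} {v : W // v ≠ P.w (P.a0 p)}, P'.EulerNonneg ∧
      (∀ v, Cn P'.H {x : {v : W // v ≠ P.w (P.a0 p)} | β x.1 = v}) ∧
      (∀ u v, G.Adj u v → ∃ x, β (P'.w x).1 = u ∧ β (P'.w (P'.a0 x)).1 = v) := by
  classical
  have hex : ∃ y, y ∉ P.E p ∧ (P.w y = P.w p ∨ P.w y = P.w (P.a0 p)) := by
    by_contra hcon
    push Not at hcon
    have hcon' : ∀ y, (P.w y = P.w p ∨ P.w y = P.w (P.a0 p)) → y ∈ P.E p := by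
      intro y hy
      by_contra hn
      have := hcon y hn
      tauto
    obtain ⟨b', hb'⟩ := exists_adj hG hV (β (P.w p))
    obtain ⟨y, hy1, hy2⟩ := hadj _ _ hb'
    have h1 := hfib (β (P.w p)) (fun x => x = P.w p ∨ x = P.w (P.a0 p)) (by
      rintro s _ t _ ⟨x, hx1, hx2⟩ hs
      rw [← hx1] at hs
      have h2 := E_ends P (hcon' x hs)
      rw [← hx2]
      rcases h2 with h | h
      · exact Or.inr h.2
      · exact Or.inl h.2) (P.w p) rfl (P.w y) hy1 (Or.inl rfl)
    have h2 := E_ends P (hcon' y h1)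
    have h3 : β (P.w (P.a0 y)) = β (P.w p) := by
      rcases h2 with h | h
      · rw [h.2, hβp]
      · rw [h.2]
    rw [h3] at hy2
    rw [← hy2] at hb'
    exact G.irrefl hb'
  obtain ⟨P', h0, hw, hf⟩ := hCON Ω W P p hp hex
  let π : W → {v : W // v ≠ P.w (P.a0 p)} := fun x =>
    if h : x = P.w (P.a0 p) then ⟨P.w p, hp⟩ else ⟨x, h⟩
  have hπ1 : π (P.w (P.a0 p)) = ⟨P.w p, hp⟩ := dif_pos rfl
  have hπ2 : ∀ (x : W) (h : x ≠ P.w (P.a0 p)), π x = ⟨x, h⟩ := fun x h => dif_neg h
  have hπw : ∀ y : {y : Ω // y ∉ P.E p}, P'.w y = π (P.w y) := by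
    intro y
    apply Subtype.ext
    by_cases h : P.w y = P.w (P.a0 p)
    · rw [(hw y).1 h, h, hπ1]
    · rw [(hw y).2 h, hπ2 _ h]
  have hβπ : ∀ x, β (π x).1 = β x := by
    intro x
    by_cases h : x = P.w (P.a0 p)
    · rw [h, hπ1]
      exact hβp
    · rw [hπ2 _ h]
  have hπE : ∀ x, x ∈ P.E p → π (P.w x) = π (P.w (P.a0 x)) := by
    intro x hx
    have e : π (P.w p) = π (P.w (P.a0 p)) := by rw [hπ1, hπ2 _ hp]
    rcases E_ends P hx with h | h
    · rw [h.1, h.2, e]
    · rw [h.1, h.2, e]
  refine ⟨P', ?_, ?_, ?_⟩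
  · have h1 := card_compl P p
    have h2 := card_ne (P.w (P.a0 p))
    unfold PM.EulerNonneg at hE ⊢
    omega
  · intro v g hg s hs t ht hgs
    have h1 := hfib v (fun x => g (π x)) (by
      rintro s0 hs0 t0 ht0 ⟨x, rfl, rfl⟩ hgx
      by_cases hx : x ∈ P.E p
      · show g (π (P.w (P.a0 x)))
        rw [← hπE x hx]
        exact hgx
      · refine hg (π (P.w x)) ?_ (π (P.w (P.a0 x))) ?_ ⟨⟨x, hx⟩, ?_, ?_⟩ hgx
        · show β (π (P.w x)).1 = v
          rw [hβπ]
          exact hs0
        · show β (π (P.w (P.a0 x))).1 = v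
          rw [hβπ]
          exact ht0
        · exact hπw ⟨x, hx⟩
        · rw [hπw, h0]) s.1 hs t.1 ht (by
      show g (π s.1)
      rw [hπ2 _ s.2]
      exact hgs)
    have h2 : g (π t.1) := h1
    rw [hπ2 _ t.2] at h2
    exact h2
  · intro u v huv
    obtain ⟨x, hx1, hx2⟩ := hadj u v huv
    have hx : x ∉ P.E p := by
      intro hx
      have h3 : u = v := by
        rw [← hx1, ← hx2, ← hβπ, ← hβπ (P.w (P.a0 x)), hπE x hx]
      rw [h3] at huv
      exact G.irrefl huv
    refine ⟨⟨x, hx⟩, ?_, ?_⟩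
    · rw [hπw, hβπ]
      exact hx1
    · rw [hπw, hβπ, h0]
      exact hx2

end INDaux

open INDaux in
theorem t_IND : M_IND := by
  classical
  intro hCON hDEL
  have key : ∀ n : ℕ, ∀ (Ω W V : Type) [Finite Ω] [Finite W] [Finite V] (P : PM Ω W)
      (G : SimpleGraph V) (β : W → V), Nat.card Ω = n → P.EulerNonneg → G.Connected →
      Nontrivial V → (∀ v, Cn P.H {x | β x = v}) →
      (∀ u v, G.Adj u v → ∃ x, β (P.w x) = u ∧ β (P.w (P.a0 x)) = v) →
      ∃ (Ω' : Type) (_ : Finite Ω') (M : KR.GMap G Ω'), M.EulerNonneg := by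
    intro n
    induction n using Nat.strong_induction_on with
    | _ n ih =>
      intro Ω W V _ _ _ P G β hn hE hG hV hfib hadj
      by_cases hA : ∃ p, P.w p ≠ P.w (P.a0 p) ∧ β (P.w p) = β (P.w (P.a0 p))
      · obtain ⟨p, hp, hβp⟩ := hA
        obtain ⟨P', hE', hfib', hadj'⟩ := con_step hCON P G β hE hG hV hfib hadj p hp hβp
        have h1 := card_compl P p
        exact ih (Nat.card {y : Ω // y ∉ P.E p}) (by omega) _ _ V P' G (fun x => β x.1) rfl hE' hG
          hV hfib' hadj'
      · push Not at hA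
        have hinj : Function.Injective β := by
          intro s t hst
          have h1 := hfib (β s) (fun x => x = s) (by
            rintro s' hs' t' ht' ⟨x, rfl, rfl⟩ hgx
            have h2 : β (P.w x) = β (P.w (P.a0 x)) := by
              rw [mem_ofPred_eq] at hs' ht'
              rw [hs', ht']
            by_contra hne
            have h3 : P.w x ≠ P.w (P.a0 x) := by
              intro h4
              apply hne
              show P.w (P.a0 x) = s
              rw [← h4]
              exact hgx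
            exact hA x h3 h2) s rfl t hst.symm rfl
          exact h1.symm
        have hsurj : Function.Surjective β := by
          intro v
          obtain ⟨v', hv'⟩ := exists_adj hG hV v
          obtain ⟨x, hx, -⟩ := hadj _ _ hv'
          exact ⟨_, hx⟩
        by_cases hB : ∃ p, ¬ G.Adj (β (P.w p)) (β (P.w (P.a0 p)))
        · obtain ⟨p, hp⟩ := hB
          have hE2 : ∀ x, G.Adj (β (P.w x)) (β (P.w (P.a0 x))) → x ∉ P.E p := by
            intro x hx hxp
            rcases E_ends P hxp with h | h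
            · rw [h.1, h.2] at hx
              exact hp hx
            · rw [h.1, h.2] at hx
              exact hp hx.symm
          obtain ⟨P', hE', hfib', hadj'⟩ := del_step hDEL P G β hE hinj p (by
              obtain ⟨b', hb'⟩ := exists_adj hG hV (β (P.w p))
              obtain ⟨y, hy1, hy2⟩ := hadj _ _ hb'
              refine ⟨y, hE2 y ?_, hinj hy1⟩
              rw [hy1, hy2]
              exact hb') (by
              intro u v huv
              obtain ⟨x, hx1, hx2⟩ := hadj u v huv
              refine ⟨x, hE2 x ?_, hx1, hx2⟩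
              rw [hx1, hx2]
              exact huv)
          have h1 := card_compl P p
          exact ih (Nat.card {y : Ω // y ∉ P.E p}) (by omega) _ _ V P' G β rfl hE' hG
            hV hfib' hadj'
        · push Not at hB
          have hloop : ∀ x, P.w x ≠ P.w (P.a0 x) := by
            intro x hx
            have := hB x
            rw [← hx] at this
            exact G.irrefl this
          by_cases hC : ∃ x y, P.w x = P.w y ∧ P.w (P.a0 x) = P.w (P.a0 y) ∧ x ≠ y ∧ x ≠ P.a2 y
          · obtain ⟨x, y, h1, h2, h3, h4⟩ := hC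
            have hxy : x ∉ P.E y := by
              intro hx
              rcases hx with h | h | h | h
              · exact h3 h
              · apply hloop x
                rw [h2, h]
              · exact h4 h
              · apply hloop x
                rw [h2, h, P.c02, P.w2]
            have hxy' : P.a0 x ∉ P.E y := by
              intro hx
              apply hxy
              have := E_a0 P hx
              rw [P.i0] at this
              exact this
            obtain ⟨P', hE', hfib', hadj'⟩ := del_step hDEL P G β hE hinj y ⟨x, hxy, h1⟩ (by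
              intro u v huv
              obtain ⟨z, hz1, hz2⟩ := hadj u v huv
              by_cases hz : z ∈ P.E y
              · rcases E_ends P hz with h | h
                · refine ⟨x, hxy, ?_, ?_⟩
                  · rw [h1, ← h.1]
                    exact hz1
                  · rw [h2, ← h.2]
                    exact hz2
                · refine ⟨P.a0 x, hxy', ?_, ?_⟩
                  · rw [h2, ← h.1]
                    exact hz1
                  · rw [P.i0, h1, ← h.2]
                    exact hz2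
              · exact ⟨z, hz, hz1, hz2⟩)
            have h5 := card_compl P y
            exact ih (Nat.card {z : Ω // z ∉ P.E y}) (by omega) _ _ V P' G β rfl hE' hG
              hV hfib' hadj'
          · push Not at hC
            refine final P G β hE ⟨hinj, hsurj⟩ hadj hB ?_
            intro x y hx hy
            by_cases hxy : x = y
            · exact Or.inl hxy
            · exact Or.inr (hC x y hx hy hxy)
  intro Ω W V _ _ _ P G β hE hG hV hfib hadj
  exact key _ Ω W V P G β rfl hE hG hV hfib hadj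

end KBG
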