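import Pool.Agent.KBG.Stmts

set_option autoImplicit false

namespace KBG

open Set

namespace KT2aux

/-- The relation of the Klein bottle. -/
def Rl (p q : ℝ × ℝ) : Prop :=
  ∃ m n : ℤ, q.1 = p.1 + (m : ℝ) ∧ q.2 = (-1 : ℝ) ^ m * p.2 + (n : ℝ)

/-- The five separating functions. -/
noncomputable def F (p : ℝ × ℝ) : ℝ × ℝ × ℝ × ℝ × ℝ :=
  (Real.cos (2 * Real.pi * p.1), Real.sin (2 * Real.pi * p.1), Real.cos (2 * Real.pi * p.2),
    Real.cos (Real.pi * p.1) * Real.sin (2 * Real.pi * p.2),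
    Real.sin (Real.pi * p.1) * Real.sin (2 * Real.pi * p.2))

lemma F_cont : Continuous F := by
  unfold F
  fun_prop

lemma shift {a b : ℝ} (hc : Real.cos (2 * Real.pi * a) = Real.cos (2 * Real.pi * b))
    (hs : Real.sin (2 * Real.pi * a) = Real.sin (2 * Real.pi * b)) : ∃ k : ℤ, a = b + (k : ℝ) := by
  have h := Real.Angle.cos_sin_inj hc hs
  rw [Real.Angle.angle_eq_iff_two_pi_dvd_sub] at h
  obtain ⟨k, hk⟩ := h
  refine ⟨k, ?_⟩
  have hp : (2 * Real.pi) ≠ 0 := by positivity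
  have : 2 * Real.pi * a = 2 * Real.pi * (b + k) := by linarith
  exact mul_left_cancel₀ hp this

lemma cos_int (m : ℤ) (x : ℝ) : Real.cos (Real.pi * (x + m)) = (-1 : ℝ) ^ m * Real.cos (Real.pi * x) := by
  have h : Real.pi * (x + m) = Real.pi * x + m * Real.pi := by ring
  rw [h, Real.cos_add_int_mul_pi]

lemma sin_int (m : ℤ) (x : ℝ) : Real.sin (Real.pi * (x + m)) = (-1 : ℝ) ^ m * Real.sin (Real.pi * x) := by
  have h : Real.pi * (x + m) = Real.pi * x + m * Real.pi := by ring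
  rw [h, Real.sin_add_int_mul_pi]

lemma sgn (m : ℤ) : ((-1 : ℝ) ^ m = 1) ∨ ((-1 : ℝ) ^ m = -1) := by
  rcases Int.even_or_odd m with h | h
  · exact Or.inl h.neg_one_zpow
  · exact Or.inr h.neg_one_zpow

lemma F_inv (p q : ℝ × ℝ) (h : Rl p q) : F p = F q := by
  obtain ⟨m, n, h1, h2⟩ := h
  unfold F
  rw [h1, h2]
  have e1 : Real.cos (2 * Real.pi * (p.1 + m)) = Real.cos (2 * Real.pi * p.1) := by
    have : 2 * Real.pi * (p.1 + m) = 2 * Real.pi * p.1 + m * (2 * Real.pi) := by ring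
    rw [this, Real.cos_add_int_mul_two_pi]
  have e2 : Real.sin (2 * Real.pi * (p.1 + m)) = Real.sin (2 * Real.pi * p.1) := by
    have : 2 * Real.pi * (p.1 + m) = 2 * Real.pi * p.1 + m * (2 * Real.pi) := by ring
    rw [this, Real.sin_add_int_mul_two_pi]
  have e3 : Real.cos (2 * Real.pi * ((-1 : ℝ) ^ m * p.2 + n)) = Real.cos (2 * Real.pi * p.2) := by
    have : 2 * Real.pi * ((-1 : ℝ) ^ m * p.2 + n) =
      2 * Real.pi * ((-1 : ℝ) ^ m * p.2) + n * (2 * Real.pi) := by ring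
    rw [this, Real.cos_add_int_mul_two_pi]
    rcases sgn m with h | h <;> rw [h]
    · rw [one_mul]
    · rw [show 2 * Real.pi * (-1 * p.2) = -(2 * Real.pi * p.2) by ring, Real.cos_neg]
  have e4 : Real.sin (2 * Real.pi * ((-1 : ℝ) ^ m * p.2 + n)) =
      (-1 : ℝ) ^ m * Real.sin (2 * Real.pi * p.2) := by
    have : 2 * Real.pi * ((-1 : ℝ) ^ m * p.2 + n) =
      2 * Real.pi * ((-1 : ℝ) ^ m * p.2) + n * (2 * Real.pi) := by ring
    rw [this, Real.sin_add_int_mul_two_pi]
    rcases sgn m with h | h <;> rw [h]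
    · rw [one_mul, one_mul]
    · rw [show 2 * Real.pi * (-1 * p.2) = -(2 * Real.pi * p.2) by ring, Real.sin_neg]
      ring
  rw [e1, e2, e3, e4, cos_int, sin_int]
  rcases sgn m with h | h <;> rw [h]
  · simp
  · simp

lemma F_sep (p q : ℝ × ℝ) (h : F p = F q) : Rl p q := by
  unfold F at h
  simp only [Prod.mk.injEq] at h
  obtain ⟨h1, h2, h3, h4, h5⟩ := h
  obtain ⟨m, hm⟩ := shift h1.symm h2.symm
  rw [hm, cos_int] at h4
  rw [hm, sin_int] at h5
  have hs : Real.sin (2 * Real.pi * p.2) = (-1 : ℝ) ^ m * Real.sin (2 * Real.pi * q.2) := by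
    have hcs := Real.cos_sq_add_sin_sq (Real.pi * p.1)
    calc Real.sin (2 * Real.pi * p.2)
        = (Real.cos (Real.pi * p.1) ^ 2 + Real.sin (Real.pi * p.1) ^ 2) *
            Real.sin (2 * Real.pi * p.2) := by rw [hcs, one_mul]
      _ = Real.cos (Real.pi * p.1) * (Real.cos (Real.pi * p.1) * Real.sin (2 * Real.pi * p.2)) +
          Real.sin (Real.pi * p.1) * (Real.sin (Real.pi * p.1) * Real.sin (2 * Real.pi * p.2)) := by
            ring
      _ = (Real.cos (Real.pi * p.1) ^ 2 + Real.sin (Real.pi * p.1) ^ 2) *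
            ((-1 : ℝ) ^ m * Real.sin (2 * Real.pi * q.2)) := by rw [h4, h5]; ring
      _ = _ := by rw [hcs, one_mul]
  rcases sgn m with hg | hg
  · rw [hg, one_mul] at hs
    obtain ⟨n, hn⟩ := shift h3.symm hs.symm
    exact ⟨m, n, hm, by rw [hg, one_mul]; exact hn⟩
  · rw [hg] at hs
    have hc : Real.cos (2 * Real.pi * q.2) = Real.cos (2 * Real.pi * (-p.2)) := by
      rw [show 2 * Real.pi * (-p.2) = -(2 * Real.pi * p.2) by ring, Real.cos_neg]
      exact h3.symm
    have hs' : Real.sin (2 * Real.pi * q.2) = Real.sin (2 * Real.pi * (-p.2)) := by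
      rw [show 2 * Real.pi * (-p.2) = -(2 * Real.pi * p.2) by ring, Real.sin_neg, hs]
      ring
    obtain ⟨n, hn⟩ := shift hc hs'
    exact ⟨m, n, hm, by rw [hg, hn]; ring⟩

end KT2aux

open KT2aux in
theorem t_KT2 : S_KT2 := by
  show T2Space K
  have hc : Continuous (Quot.lift F (fun p q h => F_inv p q h) : K → ℝ × ℝ × ℝ × ℝ × ℝ) :=
    continuous_quot_lift _ F_cont
  refine T2Space.of_injective_continuous (f := Quot.lift F (fun p q h => F_inv p q h)) ?_ hc
  intro a b hab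
  induction a using Quot.ind with
  | mk p =>
    induction b using Quot.ind with
    | mk q => exact Quot.sound (F_sep p q hab)

end KBG
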