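import Pool.Agent.KBG.Stmts

/-!
# Project KBG: from a minor model to a total labelling (module LAB)
-/

set_option autoImplicit false

namespace KBG

open Set

namespace LABaux

/-- a connected set stays connected when a neighbour is added -/
theorem Cn_insert {T : Type} {H : T → T → Prop} (hs : ∀ x y, H x y → H y x) {B : Set T} {x y : T}
    (hB : Cn H B) (hx : x ∈ B) (hxy : H x y) : Cn H (insert y B) := by
  intro g hg
  have hB' := hB g fun s hs t ht => hg s (mem_insert_of_mem _ hs) t (mem_insert_of_mem _ ht)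
  have hx' := mem_insert_of_mem y hx
  have hyx : g y → g x := hg y (mem_insert _ _) x hx' (hs _ _ hxy)
  have hxy' : g x → g y := hg x hx' y (mem_insert _ _) hxy
  intro s hs t ht h
  rcases hs with rfl | hs
  · rcases ht with rfl | ht
    · exact h
    · exact hB' x hx t ht (hyx h)
  · rcases ht with rfl | ht
    · exact hxy' (hB' s hs x hx h)
    · exact hB' s hs t ht h

/-- a maximal family -/
theorem exists_max {T V : Type} [Finite T] [Finite V] (Q : (V → Set T) → Prop) (A : V → Set T)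
    (hA : Q A) : ∃ B : V → Set T, (∀ v, A v ⊆ B v) ∧ Q B ∧
      ∀ B' : V → Set T, Q B' → (∀ v, B v ⊆ B' v) → ∀ v, B' v ⊆ B v := by
  classical
  obtain ⟨B, hAB, hB⟩ := Finite.exists_le_maximal (p := Q) hA
  exact ⟨B, hAB, hB.prop, fun B' hB' h => hB.le_of_ge hB' h⟩

/-- adding an element to one set of a disjoint family of connected sets -/
theorem update_ok {T V : Type} {H : T → T → Prop} (hs : ∀ x y, H x y → H y x) [DecidableEq V]
    {B : V → Set T} (hd : ∀ u v, u ≠ v → Disjoint (B u) (B v)) (hc : ∀ v, Cn H (B v)) {u : V}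
    {x y : T} (hx : x ∈ B u) (hxy : H x y) (hy : ∀ v, v ≠ u → y ∉ B v) :
    (∀ a b, a ≠ b → Disjoint (Function.update B u (insert y (B u)) a)
      (Function.update B u (insert y (B u)) b)) ∧
    ∀ v, Cn H (Function.update B u (insert y (B u)) v) := by
  constructor
  · intro a b hab
    by_cases ha : a = u
    · subst ha
      have hb : b ≠ a := fun h => hab h.symm
      rw [Function.update_self, Function.update_of_ne hb, disjoint_insert_left]
      exact ⟨hy b hb, hd a b hab⟩
    · by_cases hb : b = u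
      · subst hb
        rw [Function.update_self, Function.update_of_ne ha, disjoint_insert_right]
        exact ⟨hy a ha, hd a b hab⟩
      · rw [Function.update_of_ne ha, Function.update_of_ne hb]
        exact hd a b hab
  · intro v
    by_cases hv : v = u
    · subst hv
      rw [Function.update_self]
      exact Cn_insert hs (hc v) hx hxy
    · rw [Function.update_of_ne hv]
      exact hc v

theorem sub_update {T V : Type} [DecidableEq V] (B : V → Set T) (u : V) (y : T) (v : V) :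
    B v ⊆ Function.update B u (insert y (B u)) v := by
  by_cases hv : v = u
  · subst hv
    rw [Function.update_self]
    exact subset_insert _ _
  · rw [Function.update_of_ne hv]

/-- the first step -/
theorem step1 {T V E : Type} [Finite T] [Finite V] {H : T → T → Prop}
    (hsym : ∀ x y, H x y → H y x) {s t : E → V} {A : V → Set T} {C : E → Set T}
    (hst : ∀ e, s e ≠ t e) (hA : ∀ v, Cn H (A v)) (hC : ∀ e, Cn H (C e))
    (hAA : ∀ u v, u ≠ v → Disjoint (A u) (A v)) (hCC : ∀ e f, e ≠ f → Disjoint (C e) (C f))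
    (hCA : ∀ e v, v ≠ s e → v ≠ t e → Disjoint (C e) (A v))
    (hne : ∀ e, (C e ∩ A (s e)).Nonempty ∧ (C e ∩ A (t e)).Nonempty) :
    ∃ B : V → Set T, (∀ v, A v ⊆ B v) ∧ (∀ u v, u ≠ v → Disjoint (B u) (B v)) ∧
      (∀ v, Cn H (B v)) ∧ ∀ e, ∃ x ∈ B (s e), ∃ y ∈ B (t e), H x y := by
  classical
  obtain ⟨B, hAB, ⟨hsub, hd, hc⟩, hmax⟩ := exists_max
    (fun B : V → Set T => (∀ v, ∀ x ∈ B v, x ∈ A v ∨ ∃ e, s e = v ∧ x ∈ C e) ∧
      (∀ u v, u ≠ v → Disjoint (B u) (B v)) ∧ ∀ v, Cn H (B v)) A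
    ⟨fun v x hx => Or.inl hx, hAA, hA⟩
  refine ⟨B, hAB, hd, hc, fun e => ?_⟩
  by_contra hno
  push Not at hno
  obtain ⟨⟨c1, hc1, hc1'⟩, c2, hc2, hc2'⟩ := hne e
  have h1 : ¬ ∀ x ∈ C e, ∀ y ∈ C e, H x y → x ∈ B (s e) → y ∈ B (s e) := by
    intro h
    have h2 := hC e (fun x => x ∈ B (s e)) h c1 hc1 c2 hc2 (hAB _ hc1')
    exact disjoint_left.1 (hd _ _ (hst e)) h2 (hAB _ hc2')
  push Not at h1
  obtain ⟨x, hx, y, hy, hxy, hxB, hyB⟩ := h1
  have hyv : ∀ v, v ≠ s e → y ∉ B v := by
    intro v hv hyv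
    by_cases hvt : v = t e
    · subst hvt
      exact hno x hxB y hyv hxy
    · rcases hsub v y hyv with h | ⟨f, hf, hyf⟩
      · exact disjoint_left.1 (hCA e v hv hvt) hy h
      · have hfe : e ≠ f := by
          rintro rfl
          exact hv hf.symm
        exact disjoint_left.1 (hCC e f hfe) hy hyf
  obtain ⟨h3, h4⟩ := update_ok hsym hd hc hxB hxy hyv
  have h5 := hmax (Function.update B (s e) (insert y (B (s e)))) ⟨?_, h3, h4⟩
    (sub_update B (s e) y) (s e)
  · rw [Function.update_self] at h5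
    exact hyB (h5 (mem_insert _ _))
  · intro v z hz
    by_cases hv : v = s e
    · subst hv
      rw [Function.update_self] at hz
      rcases hz with rfl | hz
      · exact Or.inr ⟨e, rfl, hy⟩
      · exact hsub _ z hz
    · rw [Function.update_of_ne hv] at hz
      exact hsub v z hz

/-- the second step -/
theorem step2 {T V : Type} [Finite T] [Finite V] [Nonempty V] {H : T → T → Prop}
    (hsym : ∀ x y, H x y → H y x) (hU : Cn H univ) {B : V → Set T} (hne : ∀ v, (B v).Nonempty)
    (hd : ∀ u v, u ≠ v → Disjoint (B u) (B v)) (hc : ∀ v, Cn H (B v)) :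
    ∃ β : T → V, (∀ v, Cn H {x | β x = v}) ∧ ∀ v, ∀ x ∈ B v, β x = v := by
  classical
  obtain ⟨B2, hBB, ⟨hd2, hc2⟩, hmax⟩ := exists_max
    (fun B : V → Set T => (∀ u v, u ≠ v → Disjoint (B u) (B v)) ∧ ∀ v, Cn H (B v)) B ⟨hd, hc⟩
  have hall : ∀ x, ∃ v, x ∈ B2 v := by
    by_contra hno
    push Not at hno
    obtain ⟨z, hz⟩ := hno
    obtain ⟨v0⟩ := ‹Nonempty V›
    obtain ⟨x0, hx0⟩ := hne v0
    have h1 : ¬ ∀ x ∈ (univ : Set T), ∀ y ∈ (univ : Set T), H x y →
        (∃ v, x ∈ B2 v) → ∃ v, y ∈ B2 v := by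
      intro h
      obtain ⟨v, hv⟩ := hU (fun x => ∃ v, x ∈ B2 v) h x0 (mem_univ _) z (mem_univ _)
        ⟨v0, hBB _ hx0⟩
      exact hz v hv
    push Not at h1
    obtain ⟨x, _, y, _, hxy, ⟨v, hv⟩, hyv⟩ := h1
    obtain ⟨h3, h4⟩ := update_ok hsym hd2 hc2 hv hxy (fun u _ => hyv u)
    have h5 := hmax (Function.update B2 v (insert y (B2 v))) ⟨h3, h4⟩ (sub_update B2 v y) v
    rw [Function.update_self] at h5
    exact hyv v (h5 (mem_insert _ _))
  choose β hβ using hall
  have huniq : ∀ v, ∀ x ∈ B2 v, β x = v := by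
    intro v x hx
    by_contra h
    exact disjoint_left.1 (hd2 _ _ h) (hβ x) hx
  refine ⟨β, fun v => ?_, fun v x hx => huniq v x (hBB v hx)⟩
  have : {x | β x = v} = B2 v := by
    ext x
    constructor
    · intro h
      rw [← (show β x = v from h)]
      exact hβ x
    · exact huniq v x
  rw [this]
  exact hc2 v

end LABaux

open LABaux in
theorem t_LAB : S_LAB := by
  intro T V E _ _ _ H hsym hU s t A C hst hA hC hAA hCC hCA hne
  obtain ⟨B, hAB, hd, hc, he⟩ := step1 hsym hst (fun v => (hA v).1) hC hAA hCC hCA hne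
  obtain ⟨β, h1, h2⟩ := step2 hsym hU (fun v => (hA v).2.mono (hAB v)) hd hc
  refine ⟨β, h1, fun e => ?_⟩
  obtain ⟨x, hx, y, hy, hxy⟩ := he e
  exact ⟨x, y, h2 _ x hx, h2 _ y hy, hxy⟩

end KBG
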