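import Pool.Agent.KBG.Stmts

/-!
# The vertex of a contracted edge (project KBG, module MRG)
-/

set_option autoImplicit false

namespace KBG

open Set

namespace MRGaux

variable {Ω W : Type} (P : PM Ω W)

theorem mem_E (p x : Ω) :
    x ∈ P.E p ↔ x = p ∨ x = P.a0 p ∨ x = P.a2 p ∨ x = P.a0 (P.a2 p) := by
  simp [PM.E]

theorem E_a0 (p : Ω) : P.E (P.a0 p) = P.E p := by
  ext x
  rw [mem_E, mem_E, P.i0, ← P.c02, P.i0]
  tauto

/-- The flags of the edge at the vertex of `p`. -/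
theorem w_E {p x : Ω} (hne : P.w p ≠ P.w (P.a0 p)) (h : x ∈ P.E p) (hw : P.w x = P.w p) :
    x = p ∨ x = P.a2 p := by
  rw [mem_E] at h
  rcases h with h | h | h | h
  · exact Or.inl h
  · exact absurd (by rw [← hw, h]) hne
  · exact Or.inr h
  · exact absurd (by rw [← hw, h, P.c02, P.w2]) hne

theorem w_of_E {p x : Ω} (h : x ∈ P.E p) : P.w x = P.w p ∨ P.w x = P.w (P.a0 p) := by
  rw [mem_E] at h
  rcases h with h | h | h | h
  · exact Or.inl (by rw [h])
  · exact Or.inr (by rw [h])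
  · exact Or.inl (by rw [h, P.w2])
  · exact Or.inr (by rw [h, P.c02, P.w2])

theorem a2_E {p x : Ω} : P.a2 x ∈ P.E p ↔ x ∈ P.E p := by
  have key : ∀ y, y ∈ P.E p → P.a2 y ∈ P.E p := by
    intro y hy
    rw [mem_E] at hy ⊢
    rcases hy with h | h | h | h
    · subst h; tauto
    · subst h; rw [← P.c02]; tauto
    · subst h; rw [P.i2]; tauto
    · subst h; rw [← P.c02, P.i2]; tauto
  constructor
  · intro h
    have := key _ h
    rwa [P.i2] at this
  · exact key x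

theorem sk_out {p x : Ω} (h : P.a1 x ∉ P.E p) : sk P.a1 P.a0 (P.E p) x = P.a1 x := by
  unfold sk
  rw [if_pos h]

/-- The flags at `u` if `a1 p ≠ a2 p`. -/
theorem L1 [Finite Ω] (hP : S_PAR) (p : Ω) (hne : P.w p ≠ P.w (P.a0 p)) (g : Ω → Prop)
    (hs : ∀ y, y ∉ P.E p → (g (sk P.a1 P.a0 (P.E p) y) ↔ g y))
    (h2 : ∀ y, y ∉ P.E p → (g (P.a2 y) ↔ g y)) (h12 : P.a1 p ≠ P.a2 p) :
    ∀ x, x ∉ P.E p → P.w x = P.w p → (g x ↔ g (P.a1 p)) := by
  have hpE : p ∈ P.E p := by rw [mem_E]; tauto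
  have hout : ∀ x, P.w x = P.w p → x ≠ p → x ≠ P.a2 p → x ∉ P.E p := by
    intro x hx h3 h4 h5
    rcases w_E P hne h5 hx with h | h
    · exact h3 h
    · exact h4 h
  have hstep : ∀ x, x ∉ P.E p → P.a1 x ∉ P.E p → (g (P.a1 x) ↔ g x) := by
    intro x hx hx'
    have := hs x hx
    rwa [sk_out P hx'] at this
  have hy1 : P.a1 p ∉ P.E p := hout _ (P.w1 p) (P.n1 p) h12
  have h12' : P.a1 (P.a2 p) ≠ p := by
    intro h
    apply h12
    rw [← P.i1 (P.a2 p), h]
  have hy2 : P.a1 (P.a2 p) ∉ P.E p :=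
    hout _ (by rw [P.w1, P.w2]) h12' (P.n1 _)
  have hg : g (P.a1 p) ↔ g (P.a1 (P.a2 p)) := by
    have := hP Ω P.a1 P.a2 p P.i1 P.i2 P.n1 P.n2 h12 (fun x => P.w x = P.w p ∧ g x) (by
      intro x hx hx'
      show (P.w (P.a2 x) = P.w p ∧ g (P.a2 x)) ↔ (P.w x = P.w p ∧ g x)
      rw [P.w2]
      constructor
      · rintro ⟨h, h'⟩
        exact ⟨h, (h2 x (hout x h hx hx')).1 h'⟩
      · rintro ⟨h, h'⟩
        exact ⟨h, (h2 x (hout x h hx hx')).2 h'⟩) (by
      intro x hx hx' hx1 hx2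
      show (P.w (P.a1 x) = P.w p ∧ g (P.a1 x)) ↔ (P.w x = P.w p ∧ g x)
      rw [P.w1]
      constructor
      · rintro ⟨h, h'⟩
        exact ⟨h, (hstep x (hout x h hx hx') (hout _ (by rw [P.w1, h]) hx1 hx2)).1 h'⟩
      · rintro ⟨h, h'⟩
        exact ⟨h, (hstep x (hout x h hx hx') (hout _ (by rw [P.w1, h]) hx1 hx2)).2 h'⟩)
    have h3 : P.w (P.a1 p) = P.w p := P.w1 p
    have h4 : P.w (P.a1 (P.a2 p)) = P.w p := by rw [P.w1, P.w2]
    constructor
    · intro h
      exact (this.1 ⟨h3, h⟩).2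
    · intro h
      exact (this.2 ⟨h4, h⟩).2
  -- the value at the flags next to the edge
  have hnext : ∀ x, x ∈ P.E p → P.w x = P.w p → (P.a1 x ∉ P.E p ∧ (g (P.a1 x) ↔ g (P.a1 p))) := by
    intro x hx hw
    rcases w_E P hne hx hw with h | h
    · subst h
      exact ⟨hy1, Iff.rfl⟩
    · subst h
      exact ⟨hy2, hg.symm⟩
  let G : Ω → Prop := fun x => P.w x = P.w p ∧ ((x ∈ P.E p ∧ g (P.a1 p)) ∨ (x ∉ P.E p ∧ g x))
  have hG1' : ∀ x, G x → G (P.a1 x) := by
    rintro x ⟨hw, h⟩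
    refine ⟨by rw [P.w1, hw], ?_⟩
    rcases h with ⟨h, h'⟩ | ⟨h, h'⟩
    · obtain ⟨h3, h4⟩ := hnext x h hw
      exact Or.inr ⟨h3, h4.2 h'⟩
    · by_cases h3 : P.a1 x ∈ P.E p
      · obtain ⟨_, h5⟩ := hnext _ h3 (by rw [P.w1, hw])
        rw [P.i1] at h5
        exact Or.inl ⟨h3, h5.1 h'⟩
      · exact Or.inr ⟨h3, (hstep x h h3).2 h'⟩
  have hG1 : ∀ x, G (P.a1 x) ↔ G x := by
    intro x
    constructor
    · intro h
      have := hG1' _ h
      rwa [P.i1] at this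
    · exact hG1' x
  have hG2' : ∀ x, G x → G (P.a2 x) := by
    rintro x ⟨hw, h⟩
    refine ⟨by rw [P.w2, hw], ?_⟩
    rcases h with ⟨h, h'⟩ | ⟨h, h'⟩
    · exact Or.inl ⟨(a2_E P).2 h, h'⟩
    · exact Or.inr ⟨fun h3 => h ((a2_E P).1 h3), (h2 x h).2 h'⟩
  have hG2 : ∀ x, G (P.a2 x) ↔ G x := by
    intro x
    constructor
    · intro h
      have := hG2' _ h
      rwa [P.i2] at this
    · exact hG2' x
  intro x hx hw
  have hv := P.vtx G hG1 hG2
  constructor
  · intro h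
    have h3 : G p := hv x p hw ⟨hw, Or.inr ⟨hx, h⟩⟩
    rcases h3.2 with h4 | h4
    · exact h4.2
    · exact absurd hpE h4.1
  · intro h
    have h3 : G x := hv p x hw.symm ⟨rfl, Or.inl ⟨hpE, h⟩⟩
    rcases h3.2 with h4 | h4
    · exact absurd h4.1 hx
    · exact h4.2

/-- The flags at `u` if `a1 p = a2 p`. -/
theorem L2 (p : Ω) (h12 : P.a1 p = P.a2 p) (x : Ω) (hx : P.w x = P.w p) : x ∈ P.E p := by
  have h21 : P.a1 (P.a2 p) = p := by rw [← h12, P.i1]
  have h : x = p ∨ x = P.a2 p := by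
    refine P.vtx (fun x => x = p ∨ x = P.a2 p) ?_ ?_ p x hx.symm (Or.inl rfl)
    · intro x
      show (P.a1 x = p ∨ P.a1 x = P.a2 p) ↔ (x = p ∨ x = P.a2 p)
      constructor
      · rintro (h | h)
        · right; rw [← P.i1 x, h, h12]
        · left; rw [← P.i1 x, h, h21]
      · rintro (h | h)
        · right; rw [h, h12]
        · left; rw [h, h21]
    · intro x
      show (P.a2 x = p ∨ P.a2 x = P.a2 p) ↔ (x = p ∨ x = P.a2 p)
      constructor
      · rintro (h | h)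
        · right; rw [← P.i2 x, h]
        · left; rw [← P.i2 x, h, P.i2]
      · rintro (h | h)
        · right; rw [h]
        · left; rw [h, P.i2]
  rw [mem_E]
  tauto

/-- The two sides of the edge. -/
theorem L3 (p : Ω) (hne : P.w p ≠ P.w (P.a0 p)) (g : Ω → Prop)
    (hs : ∀ y, y ∉ P.E p → (g (sk P.a1 P.a0 (P.E p) y) ↔ g y)) (h12 : P.a1 p ≠ P.a2 p)
    (h12' : P.a1 (P.a0 p) ≠ P.a2 (P.a0 p)) : g (P.a1 p) ↔ g (P.a1 (P.a0 p)) := by
  have hpE : p ∈ P.E p := by rw [mem_E]; tauto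
  have hy1 : P.a1 p ∉ P.E p := by
    intro h
    rcases w_E P hne h (P.w1 p) with h3 | h3
    · exact P.n1 p h3
    · exact h12 h3
  have hz1 : P.a1 (P.a0 p) ∉ P.E p := by
    intro h
    rw [← E_a0] at h
    have hne' : P.w (P.a0 p) ≠ P.w (P.a0 (P.a0 p)) := by rw [P.i0]; exact hne.symm
    rcases w_E P hne' h (P.w1 _) with h3 | h3
    · exact P.n1 _ h3
    · exact h12' h3
  have h := hs _ hy1
  have hsk : sk P.a1 P.a0 (P.E p) (P.a1 p) = P.a1 (P.a0 p) := by
    unfold sk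
    rw [P.i1, if_neg (not_not.2 hpE), if_pos hz1]
  rw [hsk] at h
  exact h.symm

end MRGaux

open MRGaux in
theorem t_MRG : M_MRG := by
  intro _ hP Ω W _ P p hne g hs h2 y hy z hz hyz hgy
  have hne' : P.w (P.a0 p) ≠ P.w (P.a0 (P.a0 p)) := by rw [P.i0]; exact hne.symm
  have hE : P.E (P.a0 p) = P.E p := E_a0 P p
  have hs' : ∀ y, y ∉ P.E (P.a0 p) → (g (sk P.a1 P.a0 (P.E (P.a0 p)) y) ↔ g y) := by
    rw [hE]; exact hs
  have h2' : ∀ y, y ∉ P.E (P.a0 p) → (g (P.a2 y) ↔ g y) := by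
    rw [hE]; exact h2
  by_cases hc : (P.w y = P.w p ∨ P.w y = P.w (P.a0 p)) ∧ (P.w z = P.w p ∨ P.w z = P.w (P.a0 p))
  · by_cases hp : P.a1 p = P.a2 p
    · have hy1 : P.w y ≠ P.w p := fun h => hy (L2 P p hp y h)
      have hz1 : P.w z ≠ P.w p := fun h => hz (L2 P p hp z h)
      have hy2 : P.w y = P.w (P.a0 p) := hc.1.resolve_left hy1
      have hz2 : P.w z = P.w (P.a0 p) := hc.2.resolve_left hz1
      have hp' : P.a1 (P.a0 p) ≠ P.a2 (P.a0 p) := by
        intro h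
        apply hy
        rw [← hE]
        exact L2 P _ h y hy2
      have h3 := L1 P hP (P.a0 p) hne' g hs' h2' hp'
      exact (h3 z (by rw [hE]; exact hz) hz2).2 ((h3 y (by rw [hE]; exact hy) hy2).1 hgy)
    · have h4 := L1 P hP p hne g hs h2 hp
      by_cases hp' : P.a1 (P.a0 p) = P.a2 (P.a0 p)
      · have hy1 : P.w y ≠ P.w (P.a0 p) := by
          intro h
          apply hy
          rw [← hE]
          exact L2 P _ hp' y h
        have hz1 : P.w z ≠ P.w (P.a0 p) := by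
          intro h
          apply hz
          rw [← hE]
          exact L2 P _ hp' z h
        exact (h4 z hz (hc.2.resolve_right hz1)).2 ((h4 y hy (hc.1.resolve_right hy1)).1 hgy)
      · have h3 := L1 P hP (P.a0 p) hne' g hs' h2' hp'
        have h5 := L3 P p hne g hs hp hp'
        have key : ∀ x, x ∉ P.E p → (P.w x = P.w p ∨ P.w x = P.w (P.a0 p)) →
            (g x ↔ g (P.a1 p)) := by
          intro x hx hx'
          rcases hx' with hx' | hx'
          · exact h4 x hx hx'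
          · exact (h3 x (by rw [hE]; exact hx) hx').trans h5.symm
        exact (key z hz hc.2).2 ((key y hy hc.1).1 hgy)
  · have hw : P.w y = P.w z := by
      rcases hyz with h | h
      · exact h
      · exact absurd h hc
    have hy1 : ¬ (P.w y = P.w p ∨ P.w y = P.w (P.a0 p)) := by
      intro h
      exact hc ⟨h, by rw [← hw]; exact h⟩
    have hout : ∀ x, P.w x = P.w y → x ∉ P.E p := by
      intro x hx h
      apply hy1
      rw [← hx]
      exact w_of_E P h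
    have h := P.vtx (fun x => P.w x = P.w y ∧ g x) ?_ ?_ y z hw ⟨rfl, hgy⟩
    · exact h.2
    · intro x
      show (P.w (P.a1 x) = P.w y ∧ g (P.a1 x)) ↔ (P.w x = P.w y ∧ g x)
      rw [P.w1]
      have key : P.w x = P.w y → (g (P.a1 x) ↔ g x) := by
        intro h
        have h3 := hs x (hout x h)
        rwa [sk_out P (hout _ (by rw [P.w1, h]))] at h3
      constructor
      · rintro ⟨h, h'⟩
        exact ⟨h, (key h).1 h'⟩
      · rintro ⟨h, h'⟩
        exact ⟨h, (key h).2 h'⟩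
    · intro x
      show (P.w (P.a2 x) = P.w y ∧ g (P.a2 x)) ↔ (P.w x = P.w y ∧ g x)
      rw [P.w2]
      constructor
      · rintro ⟨h, h'⟩
        exact ⟨h, (h2 x (hout x h)).1 h'⟩
      · rintro ⟨h, h'⟩
        exact ⟨h, (h2 x (hout x h)).2 h'⟩

end KBG
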