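import Pool.Agent.KBG.Stmts

/-!
# Project KBG, module PAR: a parity argument for two involutions
-/

set_option autoImplicit false

namespace KBG

open Set

namespace PARaux

/-- A finite set that is closed under an involution without fixed points is even. -/
theorem even_card {Ω : Type} [DecidableEq Ω] (R : Finset Ω) (τ : Ω → Ω)
    (h1 : ∀ x ∈ R, τ x ∈ R) (h2 : ∀ x, τ (τ x) = x) (h3 : ∀ x, τ x ≠ x) :
    (R.card : ZMod 2) = 0 := by
  have h := Finset.sum_involution (s := R) (f := fun _ => (1 : ZMod 2)) (fun a _ => τ a)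
    (fun a _ => by decide) (fun a _ _ => h3 a) (fun a ha => h1 a ha) (fun a _ => h2 a)
  rw [Finset.sum_const, nsmul_eq_mul, mul_one] at h
  exact h

/-- One direction. -/
theorem one {Ω : Type} [Finite Ω] (σ b : Ω → Ω) (p : Ω) (hσ : ∀ x, σ (σ x) = x)
    (hb : ∀ x, b (b x) = x) (nσ : ∀ x, σ x ≠ x) (nb : ∀ x, b x ≠ x) (hp : σ p ≠ b p)
    (g : Ω → Prop) (gb : ∀ x, x ≠ p → x ≠ b p → (g (b x) ↔ g x))
    (gσ : ∀ x, x ≠ p → x ≠ b p → σ x ≠ p → σ x ≠ b p → (g (σ x) ↔ g x))
    (h1 : g (σ p)) : g (σ (b p)) := by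
  classical
  by_contra h2
  have : Fintype Ω := Fintype.ofFinite Ω
  set R : Finset Ω := Finset.univ.filter fun x => x ≠ p ∧ x ≠ b p ∧ g x with hR
  have e1 : (R.card : ZMod 2) = 0 := by
    refine even_card R b ?_ hb nb
    intro x hx
    simp only [hR, Finset.mem_filter, Finset.mem_univ, true_and] at hx ⊢
    obtain ⟨a1, a2, a3⟩ := hx
    refine ⟨?_, ?_, (gb x a1 a2).2 a3⟩
    · intro h; apply a2; rw [← h, hb]
    · intro h; apply a1; rw [← hb x, h, hb]
  have m1 : σ p ∈ R := by
    simp only [hR, Finset.mem_filter, Finset.mem_univ, true_and]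
    exact ⟨nσ p, hp, h1⟩
  have e2 : ((R.erase (σ p)).card : ZMod 2) = 0 := by
    refine even_card _ σ ?_ hσ nσ
    intro x hx
    simp only [hR, Finset.mem_erase, Finset.mem_filter, Finset.mem_univ, true_and] at hx ⊢
    obtain ⟨a0, a1, a2, a3⟩ := hx
    have b1 : σ x ≠ p := by intro h; apply a0; rw [← h, hσ]
    have b2 : σ x ≠ b p := by
      intro h
      apply h2
      rw [← h, hσ]
      exact a3
    refine ⟨?_, b1, b2, (gσ x a1 a2 b1 b2).2 a3⟩
    intro h; apply a1; rw [← hσ x, h, hσ]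
  have e3 : R.card = (R.erase (σ p)).card + 1 := (Finset.card_erase_add_one m1).symm
  rw [e3] at e1
  push_cast at e1
  rw [e2, zero_add] at e1
  exact one_ne_zero e1

end PARaux

open PARaux in
theorem t_PAR : S_PAR := by
  intro Ω _ σ b p hσ hb nσ nb hp g gb gσ
  constructor
  · exact one σ b p hσ hb nσ nb hp g gb gσ
  · intro h
    have h1 := one σ b (b p) hσ hb nσ nb (by
      rw [hb]
      intro h'
      have h2 := hσ (b p)
      rw [h'] at h2
      exact hp h2) g
      (fun x a1 a2 => gb x (by rw [hb] at a2; exact a2) a1)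
      (fun x a1 a2 a3 a4 => by
        rw [hb] at a2 a4
        exact gσ x a2 a1 a4 a3) h
    rw [hb] at h1
    exact h1

end KBG
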