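import Pool.Agent.KBG.Stmts

/-!
# The squares that meet a connected set form a connected set
-/

set_option autoImplicit false

namespace KBG

open Set

namespace SCNaux

theorem near {a : ℝ} {i j : ℤ} (h1 : (i : ℝ) ≤ a) (h2 : a ≤ i + 1) (h3 : (j : ℝ) ≤ a)
    (h4 : a ≤ j + 1) : j = i ∨ j = i + 1 ∨ i = j + 1 := by
  have h5 : (i : ℝ) ≤ ((j + 1 : ℤ) : ℝ) := by push_cast; linarith
  have h6 : (j : ℝ) ≤ ((i + 1 : ℤ) : ℝ) := by push_cast; linarith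
  have h7 : i ≤ j + 1 := by exact_mod_cast h5
  have h8 : j ≤ i + 1 := by exact_mod_cast h6
  omega

theorem step {N : ℕ} [NeZero N] (hS : S_SQR) {H : Tl N → Tl N → Prop}
    (hs : ∀ s t, H s t → H t s)
    (hH : ∀ i j : ℤ, H (cl N i j) (cl N (i + 1) j) ∧ H (cl N i j) (cl N i (j + 1)))
    {C : Set K} {g : Tl N → Prop} (hg : ∀ s ∈ Sn N C, ∀ t ∈ Sn N C, H s t → g s → g t)
    {p : ℝ × ℝ} (hp : proj p ∈ C) {i j i' j' : ℤ} (h1 : p ∈ Sq0 N i j) (h2 : p ∈ Sq0 N i' j')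
    (h : g (cl N i j)) : g (cl N i' j') := by
  have hm : ∀ a b : ℤ, p ∈ Sq0 N a b → cl N a b ∈ Sn N C := fun a b hab =>
    ⟨proj p, ((hS N).1 p _).2 ⟨a, b, rfl, hab⟩, hp⟩
  obtain ⟨a1, a2, a3, a4⟩ := h1
  obtain ⟨b1, b2, b3, b4⟩ := h2
  have h3 : p ∈ Sq0 N i' j := ⟨b1, b2, a3, a4⟩
  have h4 : g (cl N i' j) := by
    rcases near a1 a2 b1 b2 with e | e | e
    · rw [e]; exact h
    · exact hg _ (hm _ _ ⟨a1, a2, a3, a4⟩) _ (hm _ _ h3) (by rw [e]; exact (hH i j).1) h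
    · exact hg _ (hm _ _ ⟨a1, a2, a3, a4⟩) _ (hm _ _ h3)
        (by rw [e]; exact hs _ _ (hH i' j).1) h
  rcases near a3 a4 b3 b4 with e | e | e
  · rw [e]; exact h4
  · exact hg _ (hm _ _ h3) _ (hm _ _ ⟨b1, b2, b3, b4⟩) (by rw [e]; exact (hH i' j).2) h4
  · exact hg _ (hm _ _ h3) _ (hm _ _ ⟨b1, b2, b3, b4⟩)
      (by rw [e]; exact hs _ _ (hH i' j').2) h4

end SCNaux

open SCNaux in
/-- The squares that meet a connected set form a connected set. -/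
theorem t_SCN : M_SCN := by
  intro hS N _ H hs hH C hC g hg s hsn t htn hgs
  by_contra hgt
  let U : Set K := ⋃ x ∈ {x : Tl N | x ∈ Sn N C ∧ g x}, Sq N x
  let U' : Set K := ⋃ x ∈ {x : Tl N | x ∈ Sn N C ∧ ¬ g x}, Sq N x
  have hU : IsClosed U := (Set.toFinite _).isClosed_biUnion fun x _ => (hS N).2 x
  have hU' : IsClosed U' := (Set.toFinite _).isClosed_biUnion fun x _ => (hS N).2 x
  have hcov : C ⊆ U ∪ U' := by
    intro c hc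
    induction c using Quot.ind with
    | _ p =>
      have hp : p ∈ Sq0 N ⌊(N : ℝ) * p.1⌋ ⌊(N : ℝ) * p.2⌋ :=
        ⟨Int.floor_le _, (Int.lt_floor_add_one _).le, Int.floor_le _,
          (Int.lt_floor_add_one _).le⟩
      have h1 : proj p ∈ Sq N (cl N ⌊(N : ℝ) * p.1⌋ ⌊(N : ℝ) * p.2⌋) :=
        ((hS N).1 p _).2 ⟨_, _, rfl, hp⟩
      have h2 : cl N ⌊(N : ℝ) * p.1⌋ ⌊(N : ℝ) * p.2⌋ ∈ Sn N C := ⟨proj p, h1, hc⟩
      by_cases h3 : g (cl N ⌊(N : ℝ) * p.1⌋ ⌊(N : ℝ) * p.2⌋)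
      · exact Or.inl (mem_biUnion (⟨h2, h3⟩ : _ ∈ {x : Tl N | x ∈ Sn N C ∧ g x}) h1)
      · exact Or.inr (mem_biUnion (⟨h2, h3⟩ : _ ∈ {x : Tl N | x ∈ Sn N C ∧ ¬ g x}) h1)
  have hCU : (C ∩ U).Nonempty := by
    obtain ⟨c, hc1, hc2⟩ := id hsn
    exact ⟨c, hc2, mem_biUnion (⟨hsn, hgs⟩ : _ ∈ {x : Tl N | x ∈ Sn N C ∧ g x}) hc1⟩
  have hCU' : (C ∩ U').Nonempty := by
    obtain ⟨c, hc1, hc2⟩ := id htn
    exact ⟨c, hc2, mem_biUnion (⟨htn, hgt⟩ : _ ∈ {x : Tl N | x ∈ Sn N C ∧ ¬ g x}) hc1⟩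
  obtain ⟨c, hc, hcU, hcU'⟩ := isPreconnected_closed_iff.1 hC U U' hU hU' hcov hCU hCU'
  obtain ⟨x, ⟨_, hx⟩, hcx⟩ := mem_iUnion₂.1 hcU
  obtain ⟨y, ⟨_, hy⟩, hcy⟩ := mem_iUnion₂.1 hcU'
  induction c using Quot.ind with
  | _ p =>
    obtain ⟨i, j, rfl, h1⟩ := ((hS N).1 p x).1 hcx
    obtain ⟨i', j', rfl, h2⟩ := ((hS N).1 p y).1 hcy
    exact hy (step hS hs hH hg hc h1 h2 hx)

end KBG
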