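import Pool.Agent.KBG.Stmts

/-!
# Graphs in the Klein bottle: small squares separate disjoint closed sets
-/

set_option autoImplicit false

namespace KBG

open Set

namespace SEPaux

theorem continuous_proj : Continuous proj := continuous_quot_mk

/-- A coordinate of a point of a square in the unit box. -/
theorem mem_unit {N i : ℕ} (hi : i < N + 1) {x : ℝ} (h1 : (i : ℝ) ≤ ((N + 1 : ℕ) : ℝ) * x)
    (h2 : ((N + 1 : ℕ) : ℝ) * x ≤ i + 1) : 0 ≤ x ∧ x ≤ 1 := by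
  have hN : (0 : ℝ) < ((N + 1 : ℕ) : ℝ) := by positivity
  have hi' : (i : ℝ) + 1 ≤ ((N + 1 : ℕ) : ℝ) := by exact_mod_cast hi
  have h0 : (0 : ℝ) ≤ i := Nat.cast_nonneg i
  constructor
  · by_contra h
    have := mul_neg_of_pos_of_neg hN (not_le.1 h)
    linarith
  · by_contra h
    have := mul_lt_mul_of_pos_left (not_le.1 h) hN
    linarith

/-- The distance of two coordinates of points of a square. -/
theorem dist_coord {N : ℕ} {i x y : ℝ} (h1 : i ≤ ((N + 1 : ℕ) : ℝ) * x)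
    (h2 : ((N + 1 : ℕ) : ℝ) * x ≤ i + 1) (h3 : i ≤ ((N + 1 : ℕ) : ℝ) * y)
    (h4 : ((N + 1 : ℕ) : ℝ) * y ≤ i + 1) : dist x y ≤ 1 / ((N + 1 : ℕ) : ℝ) := by
  have hN : (0 : ℝ) < ((N + 1 : ℕ) : ℝ) := by positivity
  have e1 : x - y ≤ 1 / ((N + 1 : ℕ) : ℝ) := by
    rw [le_div_iff₀ hN]; nlinarith
  have e2 : y - x ≤ 1 / ((N + 1 : ℕ) : ℝ) := by
    rw [le_div_iff₀ hN]; nlinarith
  rw [Real.dist_eq]
  exact abs_sub_le_iff.2 ⟨e1, e2⟩

end SEPaux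

open SEPaux in
theorem t_SEP : S_SEP := by
  intro C D hC hD hdis
  have hB : IsCompact (Icc (0 : ℝ) 1 ×ˢ Icc (0 : ℝ) 1) := isCompact_Icc.prod isCompact_Icc
  have hC' : IsCompact (proj ⁻¹' C ∩ (Icc (0 : ℝ) 1 ×ˢ Icc (0 : ℝ) 1)) :=
    hB.inter_left (hC.preimage continuous_proj)
  have hD' : IsClosed (proj ⁻¹' D) := hD.preimage continuous_proj
  have hdis' : Disjoint (proj ⁻¹' C ∩ (Icc (0 : ℝ) 1 ×ˢ Icc (0 : ℝ) 1)) (proj ⁻¹' D) :=
    Set.disjoint_left.2 fun p hp hq => Set.disjoint_left.1 hdis hp.1 hq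
  obtain ⟨δ, hδ, hth⟩ := hdis'.exists_thickenings hC' hD'
  obtain ⟨N0, hN0⟩ := exists_nat_one_div_lt hδ
  filter_upwards [Filter.eventually_ge_atTop N0] with N hN
  have hsmall : 1 / ((N + 1 : ℕ) : ℝ) < δ := by
    refine lt_of_le_of_lt ?_ hN0
    have : (N0 : ℝ) ≤ N := by exact_mod_cast hN
    push_cast
    exact one_div_le_one_div_of_le (by positivity) (by linarith)
  refine Set.disjoint_left.2 fun t ht1 ht2 => ?_
  obtain ⟨c, ⟨p, hp, rfl⟩, hc⟩ := ht1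
  obtain ⟨d, ⟨q, hq, rfl⟩, hd⟩ := ht2
  obtain ⟨p1, p2, p3, p4⟩ := hp
  obtain ⟨q1, q2, q3, q4⟩ := hq
  rw [Int.cast_natCast] at p1 p2 p3 p4 q1 q2 q3 q4
  have hp' : p ∈ Icc (0 : ℝ) 1 ×ˢ Icc (0 : ℝ) 1 :=
    ⟨mem_unit t.1.isLt p1 p2, mem_unit (ZMod.val_lt t.2) p3 p4⟩
  have hdist : dist p q < δ := by
    rw [Prod.dist_eq]
    exact lt_of_le_of_lt (max_le (dist_coord p1 p2 q1 q2) (dist_coord p3 p4 q3 q4)) hsmall
  have h1 : p ∈ Metric.thickening δ (proj ⁻¹' C ∩ (Icc (0 : ℝ) 1 ×ˢ Icc (0 : ℝ) 1)) :=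
    Metric.self_subset_thickening hδ _ ⟨hc, hp'⟩
  have h2 : p ∈ Metric.thickening δ (proj ⁻¹' D) :=
    Metric.mem_thickening_iff.2 ⟨q, hd, hdist⟩
  exact Set.disjoint_left.1 hth h1 h2

end KBG
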