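import Pool.Agent.KBG.Stmts

/-!
# The closed squares of the Klein bottle (project KBG, module SQR)
-/

set_option autoImplicit false

namespace KBG

open Set

namespace SQRaux

/-- the relation of the Klein bottle -/
def R (p q : ℝ × ℝ) : Prop :=
  ∃ m n : ℤ, q.1 = p.1 + (m : ℝ) ∧ q.2 = (-1 : ℝ) ^ m * p.2 + (n : ℝ)

theorem R_refl (p : ℝ × ℝ) : R p p := ⟨0, 0, by simp, by simp⟩

theorem R_symm {p q : ℝ × ℝ} (h : R p q) : R q p := by
  obtain ⟨m, n, h1, h2⟩ := h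
  rcases Int.even_or_odd m with hm | hm
  · refine ⟨-m, -n, by push_cast; linarith, ?_⟩
    rw [hm.neg_one_zpow] at h2
    rw [hm.neg.neg_one_zpow]
    push_cast
    linarith
  · refine ⟨-m, n, by push_cast; linarith, ?_⟩
    rw [hm.neg_one_zpow] at h2
    rw [hm.neg.neg_one_zpow]
    linarith

theorem R_trans {p q r : ℝ × ℝ} (h : R p q) (h' : R q r) : R p r := by
  obtain ⟨m, n, h1, h2⟩ := h
  obtain ⟨m', n', h1', h2'⟩ := h'
  rcases Int.even_or_odd m with hm | hm <;> rcases Int.even_or_odd m' with hm' | hm'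
  · rw [hm.neg_one_zpow] at h2
    rw [hm'.neg_one_zpow] at h2'
    refine ⟨m + m', n + n', by push_cast; linarith, ?_⟩
    rw [(hm.add hm').neg_one_zpow]
    push_cast
    linarith
  · rw [hm.neg_one_zpow] at h2
    rw [hm'.neg_one_zpow] at h2'
    refine ⟨m + m', -n + n', by push_cast; linarith, ?_⟩
    rw [(hm.add_odd hm').neg_one_zpow]
    push_cast
    linarith
  · rw [hm.neg_one_zpow] at h2
    rw [hm'.neg_one_zpow] at h2'
    refine ⟨m + m', n + n', by push_cast; linarith, ?_⟩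
    rw [(hm.add_even hm').neg_one_zpow]
    push_cast
    linarith
  · rw [hm.neg_one_zpow] at h2
    rw [hm'.neg_one_zpow] at h2'
    refine ⟨m + m', -n + n', by push_cast; linarith, ?_⟩
    rw [(hm.add_odd hm').neg_one_zpow]
    push_cast
    linarith

theorem proj_eq {p q : ℝ × ℝ} : proj p = proj q ↔ R p q := by
  constructor
  · intro h
    have h1 : Relation.EqvGen R p q := Quot.eqvGen_exact h
    exact (Equivalence.eqvGen_iff ⟨R_refl, R_symm, R_trans⟩).1 h1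
  · intro h
    exact Quot.sound h

theorem cl_fst {N : ℕ} [NeZero N] (i j : ℤ) : (((cl N i j).1.val : ℕ) : ℤ) = i % (N : ℤ) := by
  have h1 : (0 : ℤ) < N := by exact_mod_cast Nat.pos_of_ne_zero (NeZero.ne N)
  have h2 := Int.emod_nonneg i h1.ne'
  simp [cl, Int.toNat_of_nonneg h2]

theorem cl_snd {N : ℕ} [NeZero N] (i j : ℤ) :
    (cl N i j).2 = if Even (i / (N : ℤ)) then (j : ZMod N) else ((-j - 1 : ℤ) : ZMod N) := rfl

theorem cl_ext {N : ℕ} [NeZero N] {s t : Tl N} (h1 : ((s.1.val : ℕ) : ℤ) = ((t.1.val : ℕ) : ℤ))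
    (h2 : s.2 = t.2) : s = t := by
  refine Prod.ext (Fin.ext ?_) h2
  exact_mod_cast h1

theorem cl_self {N : ℕ} [NeZero N] (t : Tl N) : cl N (t.1.val : ℤ) (t.2.val : ℤ) = t := by
  have h1 : (0 : ℤ) < N := by exact_mod_cast Nat.pos_of_ne_zero (NeZero.ne N)
  have h3 : ((t.1.val : ℕ) : ℤ) < N := by exact_mod_cast t.1.isLt
  have h4 : (0 : ℤ) ≤ ((t.1.val : ℕ) : ℤ) := by positivity
  apply cl_ext
  · rw [cl_fst, Int.emod_eq_of_lt h4 h3]
  · rw [cl_snd, Int.ediv_eq_zero_of_lt h4 h3, if_pos (by simp)]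
    simp

theorem cl_even {N : ℕ} [NeZero N] (i j m n : ℤ) (hm : Even m) :
    cl N (i + N * m) (j + N * n) = cl N i j := by
  have h1 : (0 : ℤ) < N := by exact_mod_cast Nat.pos_of_ne_zero (NeZero.ne N)
  apply cl_ext
  · rw [cl_fst, cl_fst, Int.add_mul_emod_self_left]
  · rw [cl_snd, cl_snd, Int.add_mul_ediv_left _ _ h1.ne']
    by_cases h : Even (i / (N : ℤ))
    · rw [if_pos h, if_pos (h.add hm)]
      push_cast
      simp
    · have h' : ¬ Even (i / (N : ℤ) + m) := by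
        intro h2
        exact h ((Int.even_add.1 h2).2 hm)
      rw [if_neg h, if_neg h']
      push_cast
      simp

theorem cl_odd {N : ℕ} [NeZero N] (i j m n : ℤ) (hm : Odd m) :
    cl N (i + N * m) (-j - 1 + N * n) = cl N i j := by
  have h1 : (0 : ℤ) < N := by exact_mod_cast Nat.pos_of_ne_zero (NeZero.ne N)
  have hm' : ¬ Even m := Int.not_even_iff_odd.2 hm
  apply cl_ext
  · rw [cl_fst, cl_fst, Int.add_mul_emod_self_left]
  · rw [cl_snd, cl_snd, Int.add_mul_ediv_left _ _ h1.ne']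
    by_cases h : Even (i / (N : ℤ))
    · have h' : ¬ Even (i / (N : ℤ) + m) := by
        intro h2
        exact hm' ((Int.even_add.1 h2).1 h)
      rw [if_pos h, if_neg h']
      push_cast
      simp
    · have h' : Even (i / (N : ℤ) + m) := by
        rw [Int.even_add]
        exact ⟨fun h2 => absurd h2 h, fun h2 => absurd h2 hm'⟩
      rw [if_neg h, if_pos h']
      push_cast
      simp

theorem mem_even {N : ℕ} {p q : ℝ × ℝ} {i j m n : ℤ} (h : p ∈ Sq0 N i j)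
    (h1 : q.1 = p.1 + (m : ℝ)) (h2 : q.2 = p.2 + (n : ℝ)) :
    q ∈ Sq0 N (i + N * m) (j + N * n) := by
  obtain ⟨a, b, c, d⟩ := h
  refine ⟨?_, ?_, ?_, ?_⟩ <;> push_cast <;> first | rw [h1] | rw [h2]
  all_goals nlinarith

theorem mem_odd {N : ℕ} {p q : ℝ × ℝ} {i j m n : ℤ} (h : p ∈ Sq0 N i j)
    (h1 : q.1 = p.1 + (m : ℝ)) (h2 : q.2 = -p.2 + (n : ℝ)) :
    q ∈ Sq0 N (i + N * m) (-j - 1 + N * n) := by
  obtain ⟨a, b, c, d⟩ := h
  refine ⟨?_, ?_, ?_, ?_⟩ <;> push_cast <;> first | rw [h1] | rw [h2]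
  all_goals nlinarith

theorem fwd {N : ℕ} [NeZero N] {p : ℝ × ℝ} {t : Tl N} (h : proj p ∈ Sq N t) :
    ∃ i j : ℤ, cl N i j = t ∧ p ∈ Sq0 N i j := by
  obtain ⟨p', hp', he⟩ := h
  obtain ⟨m, n, h1, h2⟩ := proj_eq.1 he
  rcases Int.even_or_odd m with hm | hm
  · rw [hm.neg_one_zpow, one_mul] at h2
    exact ⟨_, _, (cl_even _ _ m n hm).trans (cl_self t), mem_even hp' h1 h2⟩
  · rw [hm.neg_one_zpow, neg_one_mul] at h2
    exact ⟨_, _, (cl_odd _ _ m n hm).trans (cl_self t), mem_odd hp' h1 h2⟩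

theorem bwd_aux {N : ℕ} [NeZero N] {p q : ℝ × ℝ} {t : Tl N} {j : ℤ}
    (hj : (j : ZMod N) = t.2) (hq : q ∈ Sq0 N (t.1.val : ℤ) j) (h : R p q) :
    proj p ∈ Sq N t := by
  have h3 : (j % (N : ℤ)) = (t.2.val : ℤ) := by rw [← hj, ZMod.val_intCast]
  have h4 : j + N * (-(j / (N : ℤ))) = (t.2.val : ℤ) := by
    rw [← h3]
    have := Int.emod_add_mul_ediv j (N : ℤ)
    linarith
  have h5 : ((q.1, q.2 + ((-(j / (N : ℤ)) : ℤ) : ℝ)) : ℝ × ℝ) ∈ Sq0 N (t.1.val : ℤ) (t.2.val : ℤ) := by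
    rw [← h4]
    have h6 := mem_even (q := (q.1, q.2 + ((-(j / (N : ℤ)) : ℤ) : ℝ))) (m := 0) hq (by simp) rfl
    simpa using h6
  refine ⟨_, h5, ?_⟩
  rw [proj_eq]
  refine R_symm (R_trans h ⟨0, -(j / (N : ℤ)), by simp, by simp⟩)

theorem bwd {N : ℕ} [NeZero N] {p : ℝ × ℝ} {t : Tl N} {i j : ℤ} (hc : cl N i j = t)
    (h : p ∈ Sq0 N i j) : proj p ∈ Sq N t := by
  have h1 : (((t.1.val : ℕ) : ℤ)) = i + N * (-(i / (N : ℤ))) := by
    rw [← hc, cl_fst]
    have := Int.emod_add_mul_ediv i (N : ℤ)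
    linarith
  have h2 : t.2 = if Even (i / (N : ℤ)) then (j : ZMod N) else ((-j - 1 : ℤ) : ZMod N) := by
    rw [← hc, cl_snd]
  by_cases hm : Even (i / (N : ℤ))
  · rw [if_pos hm] at h2
    have hm' : Even (-(i / (N : ℤ))) := hm.neg
    have h3 := mem_even (q := (p.1 + ((-(i / (N : ℤ)) : ℤ) : ℝ), p.2)) (n := 0) h rfl (by simp)
    rw [← h1, mul_zero, add_zero] at h3
    refine bwd_aux h2.symm h3 ⟨-(i / (N : ℤ)), 0, rfl, ?_⟩
    rw [hm'.neg_one_zpow]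
    simp
  · rw [if_neg hm] at h2
    have hm' : Odd (-(i / (N : ℤ))) := (Int.not_even_iff_odd.1 hm).neg
    have h3 := mem_odd (q := (p.1 + ((-(i / (N : ℤ)) : ℤ) : ℝ), -p.2)) (n := 0) h rfl (by simp)
    rw [← h1, mul_zero, add_zero] at h3
    refine bwd_aux h2.symm h3 ⟨-(i / (N : ℤ)), 0, rfl, ?_⟩
    rw [hm'.neg_one_zpow]
    simp

theorem compact_Sq0 (N : ℕ) [NeZero N] (i j : ℤ) : IsCompact (Sq0 N i j) := by
  have h1 : (0 : ℝ) < N := by exact_mod_cast Nat.pos_of_ne_zero (NeZero.ne N)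
  have h2 : Sq0 N i j = Icc ((i : ℝ) / N) (((i : ℝ) + 1) / N) ×ˢ Icc ((j : ℝ) / N) (((j : ℝ) + 1) / N) := by
    ext p
    simp only [Sq0, mem_ofPred_eq, mem_prod, mem_Icc, div_le_iff₀ h1, le_div_iff₀ h1]
    constructor
    · rintro ⟨a, b, c, d⟩
      refine ⟨⟨?_, ?_⟩, ?_, ?_⟩ <;> linarith
    · rintro ⟨⟨a, b⟩, c, d⟩
      refine ⟨?_, ?_, ?_, ?_⟩ <;> linarith
  rw [h2]
  exact isCompact_Icc.prod isCompact_Icc

end SQRaux

theorem t_SQR : M_SQR := by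
  intro hT N _
  refine ⟨fun p t => ⟨SQRaux.fwd, ?_⟩, fun t => ?_⟩
  · rintro ⟨i, j, hc, h⟩
    exact SQRaux.bwd hc h
  · have : T2Space K := hT
    have h1 : Continuous proj := continuous_quot_mk
    exact ((SQRaux.compact_Sq0 N _ _).image h1).isClosed

end KBG
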