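import Pool.Agent.KBG.SKP
import Pool.Agent.KBG.PAR
import Pool.Agent.KBG.MRG
import Pool.Agent.KBG.CON1
import Pool.Agent.KBG.DEL
import Pool.Agent.KBG.IND
import Pool.Agent.KBG.GRD
import Pool.Agent.KBG.LAB
import Pool.Agent.KBG.KT2
import Pool.Agent.KBG.SQR
import Pool.Agent.KBG.SCN
import Pool.Agent.KBG.SEP
import Pool.Agent.KBG.ARC
import Pool.Agent.KBG.FIN

/-!
# Project KBG: graphs embedded in the Klein bottle have flag maps
-/

set_option autoImplicit false

namespace KBG

theorem fin_all : S_FIN :=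
  t_FIN (t_IND (t_CON t_SKP (t_MRG t_SKP t_PAR)) (t_DEL t_SKP)) t_GRD t_LAB t_KT2
    (t_SCN (t_SQR t_KT2)) t_SEP t_ARC

/-- a 4-connected graph is connected -/
theorem connected_of_four {V : Type} [Fintype V] {G : SimpleGraph V}
    (h4 : 5 ≤ Fintype.card V ∧
      ∀ S : Finset V, S.card < 4 → (G.induce ((S : Set V)ᶜ)).Connected) : G.Connected := by
  have h := h4.2 ∅ (by simp)
  have e : ((∅ : Finset V) : Set V)ᶜ = Set.univ := by simp
  rw [e] at h
  exact (SimpleGraph.induceUnivIso G).connected_iff.1 h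

/-- `G` has a topological embedding in the Klein bottle `ℝ²` modulo `(x, y) ~ (x + 1, - y)`,
`(x, y) ~ (x, y + 1)`: the condition of the frozen statement `S10861`, word for word. -/
def EmbedsInKleinBottle {V : Type} (G : SimpleGraph V) : Prop :=
  ∃ φ : V → Quot (fun p q : ℝ × ℝ =>
          ∃ m n : ℤ, q.1 = p.1 + (m : ℝ) ∧ q.2 = (-1 : ℝ) ^ m * p.2 + (n : ℝ)),
      Function.Injective φ ∧
      ∃ γ : ∀ u v : V, Path (φ u) (φ v),
        (∀ u v, G.Adj u v → Function.Injective ⇑(γ u v)) ∧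
        (∀ u v w, G.Adj u v → ∀ t : unitInterval,
            (0 : ℝ) < (t : ℝ) → (t : ℝ) < 1 → γ u v t ≠ φ w) ∧
        (∀ u v u' v', G.Adj u v → G.Adj u' v' → s(u, v) ≠ s(u', v') →
          ∀ t t' : unitInterval, (0 : ℝ) < (t : ℝ) → (t : ℝ) < 1 →
            (0 : ℝ) < (t' : ℝ) → (t' : ℝ) < 1 → γ u v t ≠ γ u' v' t')

/-- A 4-connected graph with a topological embedding in the Klein bottle has a flag map with
nonnegative Euler characteristic. -/
theorem bridge {V : Type} [Fintype V] {G : SimpleGraph V}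
    (h4 : 5 ≤ Fintype.card V ∧
      ∀ S : Finset V, S.card < 4 → (G.induce ((S : Set V)ᶜ)).Connected)
    (he : EmbedsInKleinBottle G) :
    ∃ (Ω : Type) (_ : Finite Ω) (M : KR.GMap G Ω), M.EulerNonneg := by
  have hn : Nontrivial V := Fintype.one_lt_card_iff_nontrivial.1 (by omega)
  exact fin_all V G (connected_of_four h4) hn he

end KBG
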