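import Pool.Agent.KBG.Stmts

/-!
# Graphs in the Klein bottle: the skip function on flags (module SKP)
-/

set_option autoImplicit false

namespace KBG

open Set

namespace SKPaux

section

variable {Ω : Type} {σ b : Ω → Ω} {e : Set Ω}

theorem sk_one {y : Ω} (h : σ y ∉ e) : sk σ b e y = σ y := by
  unfold sk
  rw [if_pos h]

theorem sk_two {y : Ω} (h : σ y ∈ e) (h' : σ (b (σ y)) ∉ e) : sk σ b e y = σ (b (σ y)) := by
  unfold sk
  rw [if_neg (not_not.2 h), if_pos h']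

theorem sk_three {y : Ω} (h : σ y ∈ e) (h' : σ (b (σ y)) ∈ e) :
    sk σ b e y = σ (b (σ (b (σ y)))) := by
  unfold sk
  rw [if_neg (not_not.2 h), if_neg (not_not.2 h')]

variable (hσ : ∀ x, σ (σ x) = x) (hb : ∀ x, b (b x) = x) (nσ : ∀ x, σ x ≠ x) (nb : ∀ x, b x ≠ x)
  (he : ∀ x ∈ e, b x ∈ e)
  (h4 : ∀ x ∈ e, ∀ z ∈ e, z ≠ x → z ≠ b x → ∀ y ∈ e, y = x ∨ y = b x ∨ y = z ∨ y = b z)

include hσ in
theorem inj_σ {x y : Ω} (h : σ x = σ y) : x = y := by
  rw [← hσ x, h, hσ]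

include hb in
theorem inj_b {x y : Ω} (h : b x = b y) : x = y := by
  rw [← hb x, h, hb]

include hσ hb nσ nb he h4 in
/-- The third exit lies outside. -/
theorem third {y : Ω} (hy : y ∉ e) (h0 : σ y ∈ e) (h1 : σ (b (σ y)) ∈ e) :
    σ (b (σ (b (σ y)))) ∉ e := by
  intro h2
  have n1 : σ (b (σ y)) ≠ σ y := by
    intro h
    have h3 := inj_σ hσ h
    exact hy (h3 ▸ he _ h0)
  have n2 : σ (b (σ y)) ≠ b (σ y) := nσ _
  rcases h4 _ h0 _ h1 n1 n2 _ h2 with h | h | h | h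
  · have h3 := inj_σ hσ h
    exact hy (h3 ▸ he _ h1)
  · have h3 := congrArg σ h
    rw [hσ] at h3
    exact nb _ h3
  · have h3 := inj_b hb (inj_σ hσ h)
    exact n1 h3
  · exact nσ _ h

include hσ hb nσ nb he h4 in
theorem zero {y : Ω} (hy : y ∉ e) :
    sk σ b e y ∉ e ∧ sk σ b e (sk σ b e y) = y ∧ sk σ b e y ≠ y := by
  by_cases h0 : σ y ∈ e
  · by_cases h1 : σ (b (σ y)) ∈ e
    · have h2 := third hσ hb nσ nb he h4 hy h0 h1
      rw [sk_three h0 h1]
      have e1 : σ (σ (b (σ (b (σ y))))) = b (σ (b (σ y))) := hσ _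
      have e2 : σ (b (σ (σ (b (σ (b (σ y))))))) = b (σ y) := by rw [e1, hb, hσ]
      refine ⟨h2, ?_, ?_⟩
      · rw [sk_three (y := σ (b (σ (b (σ y))))) (by rw [e1]; exact he _ h1)
          (by rw [e2]; exact he _ h0), e2, hb, hσ]
      · intro h
        have h3 : b (σ (b (σ y))) = σ y := by rw [← e1, h]
        have h4 : σ (b (σ y)) = b (σ y) := by rw [← hb (σ (b (σ y))), h3]
        exact nσ _ h4
    · rw [sk_two h0 h1]
      refine ⟨h1, ?_, ?_⟩
      · rw [sk_two (y := σ (b (σ y))) (by rw [hσ]; exact he _ h0) (by rw [hσ, hb, hσ]; exact hy),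
          hσ, hb, hσ]
      · intro h
        have h3 : b (σ y) = σ y := by rw [← hσ (b (σ y)), h]
        exact nb _ h3
  · rw [sk_one h0]
    refine ⟨h0, ?_, nσ y⟩
    rw [sk_one (y := σ y) (by rw [hσ]; exact hy), hσ]

theorem one {g : Ω → Prop} (gσ : ∀ x, g (σ x) ↔ g x) (gb : ∀ x ∈ e, g (b x) ↔ g x) (y : Ω) :
    g (sk σ b e y) ↔ g y := by
  by_cases h0 : σ y ∈ e
  · by_cases h1 : σ (b (σ y)) ∈ e
    · rw [sk_three h0 h1, gσ, gb _ h1, gσ, gb _ h0, gσ]
    · rw [sk_two h0 h1, gσ, gb _ h0, gσ]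
  · rw [sk_one h0, gσ]

/-- The extension of `g` to `e`. -/
def ex (σ b : Ω → Ω) (e : Set Ω) (g : Ω → Prop) (z : Ω) : Prop :=
  (z ∉ e ∧ g z) ∨ (z ∈ e ∧ ((σ z ∉ e ∧ g (σ z)) ∨
    (σ z ∈ e ∧ σ (b (σ z)) ∉ e ∧ g (σ (b (σ z))))))

theorem ex_out {g : Ω → Prop} {z : Ω} (h : z ∉ e) : ex σ b e g z ↔ g z := by
  unfold ex
  constructor
  · rintro (h1 | h1)
    · exact h1.2
    · exact absurd h1.1 h
  · intro h1
    exact Or.inl ⟨h, h1⟩

theorem ex_one {g : Ω → Prop} {z : Ω} (h : z ∈ e) (h' : σ z ∉ e) :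
    ex σ b e g z ↔ g (σ z) := by
  unfold ex
  constructor
  · rintro (h1 | ⟨_, h1 | h1⟩)
    · exact absurd h h1.1
    · exact h1.2
    · exact absurd h1.1 h'
  · intro h1
    exact Or.inr ⟨h, Or.inl ⟨h', h1⟩⟩

theorem ex_two {g : Ω → Prop} {z : Ω} (h : z ∈ e) (h' : σ z ∈ e) :
    ex σ b e g z ↔ (σ (b (σ z)) ∉ e ∧ g (σ (b (σ z)))) := by
  unfold ex
  constructor
  · rintro (h1 | ⟨_, h1 | h1⟩)
    · exact absurd h h1.1
    · exact absurd h' h1.1
    · exact h1.2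
  · intro h1
    exact Or.inr ⟨h, Or.inr ⟨h', h1⟩⟩

variable {g : Ω → Prop} (gs : ∀ y, y ∉ e → (g (sk σ b e y) ↔ g y))
  (gb : ∀ y, y ∉ e → (g (b y) ↔ g y))

include hσ hb nσ nb he h4 gs in
/-- One half of the invariance under `σ`. -/
theorem half {z : Ω} (hz : z ∈ e) (hs : σ z ∈ e) (h : ex σ b e g z) : ex σ b e g (σ z) := by
  rw [ex_two hz hs] at h
  obtain ⟨h1, h2⟩ := h
  rw [ex_two hs (by rw [hσ]; exact hz), hσ]
  have n1 : σ z ≠ b z := by
    intro h3
    rw [h3, hb] at h1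
    exact h1 hs
  have h3 : σ (b z) ∉ e := by
    intro h3
    rcases h4 _ hz _ hs (nσ z) n1 _ h3 with h | h | h | h
    · apply n1
      rw [← hσ (b z), h]
    · exact nσ _ h
    · exact nb _ (inj_σ hσ h)
    · apply h1
      rw [← h, hσ]
      exact he _ hz
  refine ⟨h3, ?_⟩
  have h5 := gs _ h3
  rw [sk_three (y := σ (b z)) (by rw [hσ]; exact he _ hz) (by rw [hσ, hb]; exact hs), hσ, hb] at h5
  exact h5.1 h2

include hσ hb nσ nb he h4 gs in
theorem inv_σ (z : Ω) : ex σ b e g (σ z) ↔ ex σ b e g z := by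
  by_cases hz : z ∈ e
  · by_cases hs : σ z ∈ e
    · constructor
      · intro h
        have h1 := half hσ hb nσ nb he h4 gs hs (by rw [hσ]; exact hz) h
        rwa [hσ] at h1
      · exact half hσ hb nσ nb he h4 gs hz hs
    · rw [ex_out hs, ex_one hz hs]
  · by_cases hs : σ z ∈ e
    · rw [ex_out hz, ex_one hs (by rw [hσ]; exact hz), hσ]
    · rw [ex_out hz, ex_out hs]
      have h1 := gs z hz
      rwa [sk_one hs] at h1

include hσ hb nσ nb he h4 gs in
theorem half_b {z : Ω} (hz : z ∈ e) (h : ex σ b e g z) : ex σ b e g (b z) := by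
  have hbz := he z hz
  by_cases h0 : σ z ∈ e
  · rw [ex_two hz h0] at h
    obtain ⟨h1, h2⟩ := h
    by_cases h3 : σ (b z) ∈ e
    · exfalso
      have n1 : σ z ≠ b z := by
        intro h5
        rw [h5, hb] at h1
        exact h1 h0
      rcases h4 _ hz _ h0 (nσ z) n1 _ h3 with h | h | h | h
      · apply n1
        rw [← hσ (b z), h]
      · exact nσ _ h
      · exact nb _ (inj_σ hσ h)
      · apply h1
        rw [← h, hσ]
        exact hbz
    · rw [ex_one hbz h3]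
      have h5 := gs _ h3
      rw [sk_three (y := σ (b z)) (by rw [hσ]; exact hbz) (by rw [hσ, hb]; exact h0), hσ, hb] at h5
      exact h5.1 h2
  · rw [ex_one hz h0] at h
    by_cases h3 : σ (b z) ∈ e
    · rw [ex_two hbz h3]
      have h5 := third hσ hb nσ nb he h4 h0 (by rw [hσ]; exact hz) (by rw [hσ]; exact h3)
      have h6 := gs _ h0
      rw [sk_three (y := σ z) (by rw [hσ]; exact hz) (by rw [hσ]; exact h3)] at h6
      rw [hσ] at h5 h6
      exact ⟨h5, h6.2 h⟩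
    · rw [ex_one hbz h3]
      have h6 := gs _ h0
      rw [sk_two (y := σ z) (by rw [hσ]; exact hz) (by rw [hσ]; exact h3), hσ] at h6
      exact h6.2 h

include hσ hb nσ nb he h4 gs gb in
theorem inv_b (z : Ω) : ex σ b e g (b z) ↔ ex σ b e g z := by
  by_cases hz : z ∈ e
  · constructor
    · intro h
      have h1 := half_b hσ hb nσ nb he h4 gs (he z hz) h
      rwa [hb] at h1
    · exact half_b hσ hb nσ nb he h4 gs hz
  · have hbz : b z ∉ e := by
      intro h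
      apply hz
      rw [← hb z]
      exact he _ h
    rw [ex_out hz, ex_out hbz]
    exact gb z hz

end

end SKPaux

open SKPaux in
theorem t_SKP : S_SKP := by
  intro Ω σ b p q hσ hb nσ nb hqp hqb e hE
  have he : ∀ x ∈ e, b x ∈ e := by
    intro x hx
    rw [hE] at hx ⊢
    rcases hx with rfl | rfl | rfl | rfl
    · exact Or.inr (Or.inl rfl)
    · exact Or.inl (hb p)
    · exact Or.inr (Or.inr (Or.inr rfl))
    · exact Or.inr (Or.inr (Or.inl (hb q)))
  have h4 : ∀ x ∈ e, ∀ z ∈ e, z ≠ x → z ≠ b x → ∀ y ∈ e, y = x ∨ y = b x ∨ y = z ∨ y = b z := by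
    intro x hx z hz h1 h2 y hy
    rw [hE] at hx hz hy
    rcases hx with rfl | rfl | rfl | rfl <;> rcases hz with rfl | rfl | rfl | rfl <;>
      rcases hy with rfl | rfl | rfl | rfl <;> simp_all
  refine ⟨fun y hy => zero hσ hb nσ nb he h4 hy, fun g gσ gb y _ => one gσ gb y, ?_⟩
  intro g gs gb
  exact ⟨ex σ b e g, inv_σ hσ hb nσ nb he h4 gs, inv_b hσ hb nσ nb he h4 gs gb,
    fun y hy => ex_out hy⟩

end KBG
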