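import Pool.Agent.KBG.Defs

/-!
# Graphs in the Klein bottle: the statements (project KBG, MP_b1567b_co)

Aim (`S_FIN`): a connected simple graph with at least two vertices which has a topological embedding
in the Klein bottle `R²/Γ` (frozen statement `S10861`) has a flag map (`KR.GMap`) with nonnegative Euler
characteristic. So the three hand-ins of MP_b1567b_co hold in the words of the frozen statement.

Plan. (A) Around each vertex take the star `X v` of the first thirds of its edges, for each edge the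
middle third `Y e`: compact connected sets, disjoint or meeting exactly as they should (`S_ARC`).
Cover the Klein bottle by small closed squares. The squares that meet a connected set form a connected
set of the graph of squares (`S_SCN`), and the squares that meet disjoint compact sets are different if
the mesh is small (`S_SEP`). So `G` is a minor of the graph of squares (`S_LAB`): a map `β` of the
squares to the vertices with connected fibres. No Jordan curve theorem is used.
(B) The graph of squares has a flag map with Euler characteristic `0` (`S_GRD`). Contract the edges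
inside the fibres of `β`, delete loops, parallel edges and superfluous edges (`S_IND`); this does not
lower the Euler characteristic (`S_CON`, `S_DEL`).

Conventions. The symbol `Cn H A`: every property `g` which passes along `H` inside `A` and holds at one
element of `A` holds at all. No paths are needed.
-/

set_option autoImplicit false

namespace KBG

open Set

/-! ## B. Flag maps -/

/-- **SKP**. Let `e = {p, b p, q, b q}`, four different elements. (0) `sk σ b e` is an involution without fixed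
points of the complement of `e`. Let `y ∉ e`, `s₀ = σ y`. If `s₀ ∉ e`: clear. Otherwise `t₀ = b s₀ ∈ e`,
`s₁ = σ t₀`; if `s₁ ∉ e`: `σ s₁ = t₀ ∈ e`, `b t₀ = s₀`, `σ s₀ = y ∉ e`, so `sk s₁ = y`. If `s₁ ∈ e`: `s₁ ≠ s₀`
(otherwise `t₀ = σ s₀ = y ∉ e`), `s₁ ≠ t₀`, so `s₁` and `t₁ = b s₁` are the other pair, and
`s₂ = σ t₁ ∉ e` (`s₂ = s₀` gives `t₁ = y`, `s₂ = t₀` gives `t₁ = σ t₀ = s₁`, `s₂ = s₁` gives `t₁ = σ s₁ = t₀`,
`s₂ ≠ t₁`); `sk s₂ = y` in the same way. Fixed points: `σ y = y`, or `σ (b (σ y)) = y`, so `b (σ y) = σ y`, or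
`σ (b (σ (b (σ y)))) = y`, so `σ (b (σ y)) = b (σ y)`; all impossible.
(1) A property that is invariant under `σ` everywhere and under `b` on `e` is invariant under `sk`: clear.
(2) A property `g` of the elements outside of `e`, invariant under `sk` and `b` there, extends: put
`g' z = g z` for `z ∉ e` and, for `z ∈ e`, `g' z = (σ z ∉ e ∧ g (σ z)) ∨ (σ z ∈ e ∧ σ (b (σ z)) ∉ e ∧ g (σ (b (σ z))))`. Invariance
under `σ`: `z ∈ e`, `σ z ∈ e`: then `σ z` is in the other pair or `σ z = b z`. If `σ z = b z` then `σ (b (σ z)) = σ z ∈ e` and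
`σ (b z) = z ∈ e`: both sides are false. Otherwise `e = {z, b z, σ z, b (σ z)}`, and the
exits `σ (b z)`, `σ (b (σ z))` are both in `e` (when `σ (b z) = b (σ z)`) or both outside, and then `sk` exchanges
them. Invariance under `b`: `z ∈ e`: if `σ z ∉ e` and `σ (b z) ∉ e`: `sk (σ z) = σ (b z)`. If `σ z ∉ e`, `σ (b z) ∈ e`:
`sk (σ z) = σ (b (σ (b z)))`, which is `∉ e` by (0) (`σ (σ z) = z ∈ e`). If both are in `e`: both sides are false (if
`σ z = b z` both are false; otherwise `σ z, σ (b z)` are the other pair, `σ (b (σ z)) = σ (σ (b z)) = b z ∈ e`, and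
so on). -/
def S_SKP : Prop := ∀ (Ω : Type) (σ b : Ω → Ω) (p q : Ω), (∀ x, σ (σ x) = x) → (∀ x, b (b x) = x) →
  (∀ x, σ x ≠ x) → (∀ x, b x ≠ x) → q ≠ p → q ≠ b p →
  ∀ e : Set Ω, (∀ x, x ∈ e ↔ x = p ∨ x = b p ∨ x = q ∨ x = b q) →
  (∀ y, y ∉ e → sk σ b e y ∉ e ∧ sk σ b e (sk σ b e y) = y ∧ sk σ b e y ≠ y) ∧
  (∀ g : Ω → Prop, (∀ x, g (σ x) ↔ g x) → (∀ x ∈ e, g (b x) ↔ g x) →
    ∀ y, y ∉ e → (g (sk σ b e y) ↔ g y)) ∧
  (∀ g : Ω → Prop, (∀ y, y ∉ e → (g (sk σ b e y) ↔ g y)) → (∀ y, y ∉ e → (g (b y) ↔ g y)) →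
    ∃ g' : Ω → Prop, (∀ x, g' (σ x) ↔ g' x) ∧ (∀ x, g' (b x) ↔ g' x) ∧ ∀ y, y ∉ e → (g' y ↔ g y))

/-- **PAR**, a parity argument. `σ`, `b` involutions without fixed points of a finite type; `p`, `b p` given, `y₁ = σ p`, `y₂ = σ (b p)`, both
different from `p`, `b p` (equivalently `σ p ≠ b p`). If `g` is invariant under `b` on the complement of `{p, b p}` and under
`σ` at all `x` with `x, σ x ∉ {p, b p}`, and the complement of `{p, b p}` is restricted to a set `U` closed under `σ`, `b`, then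
`g y₁ ↔ g y₂`. Proof: suppose `g y₁` and not `g y₂` (the other case is symmetric). `R = {x ∈ U : x ≠ p, x ≠ b p, g x}` is
closed under `b` (so `|R|` is even) and `R \ {y₁}` is closed under `σ` (so `|R| - 1` is even): for `x ∈ R`, `x ≠ y₁`: `σ x ≠ p`
(otherwise `x = y₁`), `σ x ≠ b p` (otherwise `x = y₂`, but `g y₂` is false), so `g (σ x)`; `σ x ≠ y₁` as `x ≠ p`. (Here `U = univ` is enough.) -/
def S_PAR : Prop := ∀ (Ω : Type) [Finite Ω] (σ b : Ω → Ω) (p : Ω), (∀ x, σ (σ x) = x) →
  (∀ x, b (b x) = x) → (∀ x, σ x ≠ x) → (∀ x, b x ≠ x) → σ p ≠ b p → ∀ g : Ω → Prop,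
  (∀ x, x ≠ p → x ≠ b p → (g (b x) ↔ g x)) →
  (∀ x, x ≠ p → x ≠ b p → σ x ≠ p → σ x ≠ b p → (g (σ x) ↔ g x)) → (g (σ p) ↔ g (σ (b p)))

/-- **MRG**, the vertex of a contracted edge. `u = w p`, `v = w (a0 p)`, `e = E p`: `p, a2 p` are at `u`, `a0 p`, `a0 (a2 p) = a2 (a0 p)` are
at `v`. Put `y₁ = a1 p`, `y₂ = a1 (a2 p)` (at `u`), `z₁ = a1 (a0 p)`, `z₂ = a1 (a2 (a0 p))` (at `v`). For `y ∉ e` with `w y ≠ u, v`: `sk y = a1 y`
and the flags of `e` are not at `w y`: use `vtx` for the property (`x ∉ e` and `g x`), for the flags at `w y`, i.e. for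
`x ↦ w x = w y ∧ g x`. Now `w y, w z ∈ {u, v}`.
Case 1: `a1 p ≠ a2 p` and `a1 (a0 p) ≠ a2 (a0 p)`: then `y₁, y₂, z₁, z₂ ∉ e`, `sk y₁ = z₁` and `sk y₂ = z₂`. `g y₁ ↔ g y₂` by `S_PAR`
with `σ = a1`, `b = a2`, for the property `x ↦ w x = u ∧ g x`; in the same way `g z₁ ↔ g z₂`. So `g` holds at all of them or at
none, and `g'` := `g` outside of `e`, `g y₁` on `e`, is invariant under `a1` and `a2` at the flags with `w x = u` or `w x = v`; `vtx` (for the
property `x ↦ (w x = u ∨ w x = v) ∧ g' x`, or the like) shows that `g` is constant on the flags at `u` outside of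
`e`, with value `g y₁`, and on those at `v`.
Case 2: `a1 p = a2 p`: by `vtx` (property `x = p ∨ x = a2 p`) the flags at `u` are `p, a2 p`, all in `e`. If also `a1 (a0 p) = a2 (a0 p)` there is
nothing to show. Otherwise `sk z₁ = z₂` (`a1 z₁ = a0 p`, `a0 (a0 p) = p`, `a1 p = a2 p ∈ e`, `a0 (a2 p) = a2 (a0 p)`, `a1 (a2 (a0 p)) = z₂`), and `g'` := `g` outside
of `e`, `g z₁` on `e`. Case 3: `a1 (a0 p) = a2 (a0 p)`: symmetric (replace `p` by `a0 p`). -/
def S_MRG : Prop := ∀ (Ω W : Type) [Finite Ω] (P : PM Ω W) (p : Ω), P.w p ≠ P.w (P.a0 p) →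
  ∀ g : Ω → Prop, (∀ y, y ∉ P.E p → (g (sk P.a1 P.a0 (P.E p) y) ↔ g y)) →
    (∀ y, y ∉ P.E p → (g (P.a2 y) ↔ g y)) → ∀ y, y ∉ P.E p → ∀ z, z ∉ P.E p →
    (P.w y = P.w z ∨ ((P.w y = P.w p ∨ P.w y = P.w (P.a0 p)) ∧ (P.w z = P.w p ∨ P.w z = P.w (P.a0 p)))) →
    g y → g z

def M_MRG : Prop := S_SKP → S_PAR → S_MRG

/-- **CON**, contraction of an edge with different ends. `a0`, `a2` restricted, `a1` replaced by `sk a1 a0 (E p)` (`S_SKP` with `σ = a1`,
`b = a0`, `q = a2 p`), `w y` replaced by `w p` if it is `w (a0 p)`. `w1`: `sk` moves along `a1` and, on `E p`, along `a0`; the merged vertex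
is the same (`S_SKP` (1) for the property `merged vertex of x = c`). `vtx`: `S_MRG`. Faces: the map from the new faces to the old
ones is well defined by `S_SKP` (1); it is onto if every old face has a flag outside of `E p`. Otherwise all flags of the face of some
`x ∈ E p` are in `E p`, `x` and `a0 x` in this face; `a1 x ∈ E p` has the vertex `w x ≠ w (a0 x)`, so `a1 x = a2 x`, and in the same way
`a1 (a0 x) = a2 (a0 x)`; by `vtx` the flags at `w x` are `x, a2 x`, those at `w (a0 x)` are `a0 x, a2 (a0 x)`: all in `E p`, against the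
hypothesis. (`Nat.card_le_card_of_surjective`.) -/
def S_CON : Prop := ∀ (Ω W : Type) [Finite Ω] (P : PM Ω W) (p : Ω), P.w p ≠ P.w (P.a0 p) →
  (∃ y, y ∉ P.E p ∧ (P.w y = P.w p ∨ P.w y = P.w (P.a0 p))) →
  ∃ P' : PM {y : Ω // y ∉ P.E p} {v : W // v ≠ P.w (P.a0 p)},
    (∀ y, (P'.a0 y : Ω) = P.a0 y) ∧
    (∀ y : {y : Ω // y ∉ P.E p}, (P.w y = P.w (P.a0 p) → (P'.w y : W) = P.w p) ∧
      (P.w y ≠ P.w (P.a0 p) → (P'.w y : W) = P.w y)) ∧
    Nat.card P.Face ≤ Nat.card P'.Face

def M_CON : Prop := S_SKP → S_MRG → S_CON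

/-- **DEL**, deletion of an edge. `a0`, `a2`, `w` restricted, `a1` replaced by `sk a1 a2 (E p)` (`S_SKP` with `σ = a1`, `b = a2`, `q = a0 p`). `w1`:
`S_SKP` (1). `vtx`: `S_SKP` (2) and `vtx`. Faces: let `m` be the map of the set of old faces to itself which maps the face of `a2 p` to
the face of `p` and fixes the others. `x ↦ m (face of x)` is invariant under `a0`, `a1` and, on `E p`, under `a2`; so it defines a
map of the new faces to the old ones. All old faces but the face of `a2 p` are values: a face that has no flag in `E p` has a flag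
outside of `E p`; the face of `p`, if it is not the face of `a2 p`, is a value if there is a flag `∉ E p` in one of the two faces.
Otherwise the face of `p` is contained in `{p, a0 p}`, so `a1 p = a0 p`, the face of `a2 p` in `{a2 p, a0 (a2 p)}`, so `a1 (a2 p) = a0 (a2 p)`, and by
`vtx` (property `x ∈ E p`) all flags at `w p` are in `E p`, against the hypothesis. -/
def S_DEL : Prop := ∀ (Ω W : Type) [Finite Ω] (P : PM Ω W) (p : Ω),
  (∃ y, y ∉ P.E p ∧ P.w y = P.w p) →
  ∃ P' : PM {y : Ω // y ∉ P.E p} W, (∀ y, (P'.a0 y : Ω) = P.a0 y) ∧ (∀ y, P'.w y = P.w y) ∧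
    Nat.card P.Face ≤ Nat.card P'.Face + 1

def M_DEL : Prop := S_SKP → S_DEL

/-- **IND**. Induction on `Nat.card Ω`. `(E p).ncard = 4`. Every vertex `b` of `G` has a neighbour (`G` connected, `V` nontrivial).
Case A: there is `p` with `w p ≠ w (a0 p)`, `β (w p) = β (w (a0 p)) = b`. There is a flag `∉ E p` at `w p` or at `w (a0 p)`: otherwise, for a
neighbour `b'` of `b` and a flag `y` with `β (w y) = b`, `β (w (a0 y)) = b'`, the property `x = w p ∨ x = w (a0 p)` passes along `H` in the
fibre of `b`, so it holds at `w y`, `y ∈ E p`, and `β (w (a0 y)) = b`. `S_CON`: `|Ω'| = |Ω| - 4`, `|W'| = |W| - 1`; `β' = β ∘ Subtype.val`. The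
fibres are connected: for `g` on `W'` use `g̃ x = g (π x)`, where `π` maps `w (a0 p)` to `w p`; a flag `x ∈ E p` joins `w p` and `w (a0 p)`, which have the
same image; a flag `∉ E p` is a flag of `P'`. If `β (w x) = u`, `β (w (a0 x)) = v` are different, `x ∉ E p`.
Case B: no such `p`. Then `β` is injective (property `x = s` in the fibre of `β s`), and onto. (B1) some `p` with `β (w p)`, `β (w (a0 p))` not
adjacent: `S_DEL`; the flags `x` with adjacent ends are not in `E p`; there is one at `w p`. (B2) otherwise, and there are `x`, `y` with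
`w x = w y`, `w (a0 x) = w (a0 y)`, `x ≠ y`, `x ≠ a2 y`: `x ∉ E y` (`x = a0 y` or `x = a0 (a2 y)` give `w x = w (a0 y) = w (a0 x)`, a loop, but `G` has no loops);
`S_DEL` with `p = y`; a flag of `E y` can be replaced by `x` or `a0 x`. In both cases `|Ω'| = |Ω| - 4`, so the inequality is
preserved. (C) otherwise `P` is a `KR.GMap` of `G` with `β ∘ w` (`|W| = |V|`; `Quot P.Fr` is the same type). -/
def S_IND : Prop := ∀ (Ω W V : Type) [Finite Ω] [Finite W] [Finite V] (P : PM Ω W)
  (G : SimpleGraph V) (β : W → V), P.EulerNonneg → G.Connected → Nontrivial V →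
  (∀ v, Cn P.H {x | β x = v}) →
  (∀ u v, G.Adj u v → ∃ x, β (P.w x) = u ∧ β (P.w (P.a0 x)) = v) →
  ∃ (Ω' : Type) (_ : Finite Ω') (M : KR.GMap G Ω'), M.EulerNonneg

def M_IND : Prop := S_CON → S_DEL → S_IND

/-- **GRD**, the flag map of the squares. `Ω = Tl N × Dir × Bool`, `Dir` = right, up, left, down (an inductive type, `DecidableEq`, `Fintype`). `w` = the
first entry; `a2 (t, d, ε) = (t, d, !ε)`; `a1 (t, d, true) = (t, next d, false)`, `a1 (t, d, false) = (t, previous d, true)` (`true`: the side of the corner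
between `d` and `next d`, counterclockwise). `a0 ((i, j), up, ε) = ((i, j + 1), down, !ε)`, `a0 ((i, j), down, ε) = ((i, j - 1), up, !ε)`,
`a0 ((i, j), right, ε) = ((i + 1, j), left, !ε)` if `i + 1 < N`, and `((0, - j - 1), left, ε)` if `i + 1 = N`;
`a0 ((i, j), left, ε) = ((i - 1, j), right, !ε)` if `0 < i`, and `((N - 1, - j - 1), right, ε)` if `i = 0`. Faces: the corner of a flag in `Tl N` =
`Fin N × ZMod N`: right-true, up-false: `(i + 1, j + 1)`; up-true, left-false: `(i, j + 1)`; left-true, down-false: `(i, j)`; down-true, right-false: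
`(i + 1, j)`; where `(N, j)` is read as `(0, - j)`. It is invariant under `a0`, `a1`, and onto, so there are at least `N²` faces
(`Nat.card_le_card_of_surjective`); `|Ω| = 8 N²`, `|Tl N| = N²`. Adjacency: `i = N q + r`. If `r + 1 < N` then `(i + 1) / N = q`, `(i + 1) % N = r + 1`.
If `r + 1 = N` then `(i + 1) / N = q + 1`, `(i + 1) % N = 0`; use the direction `right` at `cl N i j`: for `q` even `(N - 1, j)` goes to `(0, - j - 1)`, for `q` odd
`(N - 1, - j - 1)` goes to `(0, j)`. `cl N i (j + 1)`: up for `q` even, down for `q` odd. -/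
def S_GRD : Prop := ∀ (N : ℕ) [NeZero N], ∃ (Ω : Type) (_ : Finite Ω) (P : PM Ω (Tl N)),
  P.EulerNonneg ∧ ∀ i j : ℤ, P.H (cl N i j) (cl N (i + 1) j) ∧ P.H (cl N i j) (cl N i (j + 1))

/-! ## A. Topology -/

/-- **LAB**. (1) Consider the families `B : V → Set T` with `A v ⊆ B v ⊆ A v ∪ ⋃ (e with s e = v) C e`, pairwise disjoint, all `Cn H`; `A` is one.
Take one with `∑ v, (B v).ncard` maximal (`T`, `V` finite). Claim: for each `e` there are `x ∈ B (s e)`, `y ∈ B (t e)` with `H x y`. Otherwise use `Cn H (C e)` for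
the property `x ∈ B (s e)`: it holds at a point of `C e ∩ A (s e)`, not at a point of `C e ∩ A (t e)` (disjoint), so there are `x ∈ C e ∩ B (s e)`,
`y ∈ C e \ B (s e)` with `H x y`. `y ∉ B (t e)` (otherwise done). `y ∉ B v` for `v ≠ s e, t e`: `y ∉ A v`, and `y ∉ C f` for `f` with `s f = v`, as `f ≠ e`. So `y` can be
added to `B (s e)`: the new set is `Cn H` (symmetry of `H`), against maximality. (2) Among the pairwise disjoint `Cn H` families `B'` with `B v ⊆ B' v` take a
maximal one; if some element is in no `B' v`, then by `Cn H univ` (property: in some `B' v`; `V` and the `A v` are not empty) there are `x ∈ B' v`, `y` in no `B' v`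
with `H x y`; add `y` to `B' v`. So each `x` is in exactly one `B' v`: `β x = v`. -/
def S_LAB : Prop := ∀ (T V E : Type) [Finite T] [Finite V] [Nonempty V] (H : T → T → Prop),
  (∀ x y, H x y → H y x) → Cn H univ → ∀ (s t : E → V) (A : V → Set T) (C : E → Set T),
  (∀ e, s e ≠ t e) → (∀ v, Cn H (A v) ∧ (A v).Nonempty) → (∀ e, Cn H (C e)) →
  (∀ u v, u ≠ v → Disjoint (A u) (A v)) → (∀ e f, e ≠ f → Disjoint (C e) (C f)) →
  (∀ e v, v ≠ s e → v ≠ t e → Disjoint (C e) (A v)) →
  (∀ e, (C e ∩ A (s e)).Nonempty ∧ (C e ∩ A (t e)).Nonempty) →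
  ∃ β : T → V, (∀ v, Cn H {x | β x = v}) ∧ ∀ e, ∃ x y, β x = s e ∧ β y = t e ∧ H x y

/-- **KT2**. The maps `(x, y) ↦ cos 2πx, sin 2πx, cos 2πy, cos πx sin 2πy, sin πx sin 2πy` are constant on the classes and separate them: a continuous
injection of `K` in `ℝ⁵` (`T2Space.of_injective_continuous`). If they agree at `(x, y)`, `(x', y')`: `x' = x + m`; `(cos πx', sin πx') = (-1)^m (cos πx, sin πx)`, so
`sin 2πy' = (-1)^m sin 2πy`, `cos 2πy' = cos 2πy`, so `2πy'` and `(-1)^m 2πy` have the same `cos` and `sin` and differ by a multiple of `2π`. -/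
def S_KT2 : Prop := T2Space K

/-- **SQR**. The classes of the relation are the orbits: the relation is an equivalence relation (composition of `(m, n)`, `(m', n')`:
`(m + m', (-1)^m' n + n')`), so `proj p = proj q` iff they are related (`Quot.eq` / `Equivalence`). `(x, y) ↦ (x + m, (-1)^m y + n)` maps the square
`(i, j)` to `(i + N m, j + N n)` for `m` even, `(i + N m, - j - 1 + N n)` for `m` odd, and `cl` of the image is the same (`(i + N m) / N = i / N + m`). (→) `p` is
the image of a `p'` in the square `(t.1, t.2.val)`, whose `cl` is `t`. (←) for `m = - (i / N)` the point `p` is mapped to `p'` in a square `(i % N, j')` with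
`(j' : ZMod N) = t.2`, and for a suitable `n` to a `p''` in the square `(i % N, j' % N)`, `j' % N = t.2.val`. Closed: compact image (`proj` is continuous) in a
Hausdorff space; `Sq0` is closed and bounded as `0 < N`. -/
def S_SQR : Prop := ∀ (N : ℕ) [NeZero N],
  (∀ (p : ℝ × ℝ) (t : Tl N), proj p ∈ Sq N t ↔ ∃ i j : ℤ, cl N i j = t ∧ p ∈ Sq0 N i j) ∧
  ∀ t : Tl N, IsClosed (Sq N t)

def M_SQR : Prop := S_KT2 → S_SQR

/-- **SCN**. (L) Let `p` be a point of the plane, `g` a property of squares which passes along `H` between squares that contain `proj p`. If `p` is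
in the squares `(i, j)` and `(i', j')` of the plane then `g (cl i j) → g (cl i' j')`: `|i - i'| ≤ 1`, `|j - j'| ≤ 1`, `p` is in the square `(i', j)`; one step in each
direction (`H` is symmetric). Now let `g` pass along `H` in `Sn N C`, `g s`, not `g t`, `s, t ∈ Sn N C`. Put `U` = the union of the `Sq N x`, `x ∈ Sn N C`, `g x`, and `U'` = the
union of those with not `g x`. Both are closed (finitely many), cover `C` (every point `proj p` is in `Sq N (cl ⌊N p.1⌋ ⌊N p.2⌋)`) and meet `C`; by
`isPreconnected_closed_iff` there is `c = proj p ∈ C ∩ U ∩ U'`, in a square with `g` and in one without, both contain `p` up to `cl` (`S_SQR`). All the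
squares that contain `c` are in `Sn N C`, so (L) gives a contradiction. -/
def S_SCN : Prop := ∀ (N : ℕ) [NeZero N] (H : Tl N → Tl N → Prop), (∀ s t, H s t → H t s) →
  (∀ i j : ℤ, H (cl N i j) (cl N (i + 1) j) ∧ H (cl N i j) (cl N i (j + 1))) →
  ∀ C : Set K, IsPreconnected C → Cn H (Sn N C)

def M_SCN : Prop := S_SQR → S_SCN

/-- **SEP**. `proj ⁻¹' C ∩ Icc 0 1 ×ˢ Icc 0 1` is compact and disjoint from the closed set `proj ⁻¹' D`: `Disjoint.exists_thickenings` gives `δ > 0`. The squares
`Sq (N + 1) t` are images of squares in `Icc 0 1 ×ˢ Icc 0 1` (`t.1.val + 1 ≤ N + 1`, `t.2.val + 1 ≤ N + 1`) of diameter `≤ 1 / (N + 1)` in the maximum metric. -/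
def S_SEP : Prop := ∀ C D : Set K, IsClosed C → IsClosed D → Disjoint C D →
  ∀ᶠ N : ℕ in Filter.atTop, Disjoint (Sn (N + 1) C) (Sn (N + 1) D)

/-- **ARC**. `E` = the edges (`{e : Sym2 V // e ∈ G.edgeSet}`), `(s e, t e) = Quot.out e` (so `G.Adj (s e) (t e)` and `s(s e, t e) = e`), `γ_e = γ (s e) (t e)`.
`X v = {φ v} ∪ ⋃ (s e = v) γ_e '' {0 ≤ t ≤ 1/3} ∪ ⋃ (t e = v) γ_e '' {2/3 ≤ t ≤ 1}`, `Y e = γ_e '' {1/3 ≤ t ≤ 2/3}`. Connected: unions of connected sets which
contain `φ v` (`isPreconnected_sUnion` / `IsPreconnected.union`; the subintervals of `unitInterval` are `Icc`s). Disjointness: points of different edges with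
parameters in `(0,1)` are different (third condition of `Emb`), points with parameters in `(0,1)` are not vertices (second), on one
edge different parameters give different points (first), `φ` is injective. `γ_e (1/3) ∈ Y e ∩ X (s e)`, `γ_e (2/3) ∈ Y e ∩ X (t e)`. -/
def S_ARC : Prop := ∀ (V : Type) [Finite V] (G : SimpleGraph V), Emb G →
  ∃ (E : Type) (_ : Finite E) (s t : E → V) (X : V → Set K) (Y : E → Set K),
    (∀ u v, G.Adj u v → ∃ e, (s e = u ∧ t e = v) ∨ (s e = v ∧ t e = u)) ∧ (∀ e, s e ≠ t e) ∧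
    (∀ v, IsCompact (X v) ∧ IsPreconnected (X v) ∧ (X v).Nonempty) ∧
    (∀ e, IsCompact (Y e) ∧ IsPreconnected (Y e)) ∧
    (∀ u v, u ≠ v → Disjoint (X u) (X v)) ∧ (∀ e f, e ≠ f → Disjoint (Y e) (Y f)) ∧
    (∀ e v, v ≠ s e → v ≠ t e → Disjoint (Y e) (X v)) ∧
    ∀ e, (Y e ∩ X (s e)).Nonempty ∧ (Y e ∩ X (t e)).Nonempty

/-- **FIN**, assembly. `S_ARC`; the sets are closed (`S_KT2`); `S_SEP` for the finitely many disjoint pairs gives `N`; `S_GRD` for `N + 1`, `H = P.H` (symmetric: replace
`x` by `a0 x`); `S_SCN` for the `X v`, `Y e` and for `univ` (`Sn (N + 1) univ = univ`: the squares are not empty; `K` is connected as the image of the plane); `S_LAB`;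
`S_IND`. -/
def S_FIN : Prop := ∀ (V : Type) [Finite V] (G : SimpleGraph V), G.Connected → Nontrivial V → Emb G →
  ∃ (Ω : Type) (_ : Finite Ω) (M : KR.GMap G Ω), M.EulerNonneg

def M_FIN : Prop := S_IND → S_GRD → S_LAB → S_KT2 → S_SCN → S_SEP → S_ARC → S_FIN

end KBG
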